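import Pool.Agent.Helper449.MST.J
import Pool.Agent.Helper449.MST.G

/-!
# The product of three `3`-cyclic actions: tuning modules and the function `v`
-/

namespace Pool.Agent.R921

open MvPolynomial Pool.Agent.Helper449.MST

/-- The diagonal matrix of `g ∈ G = (ℤ/3)³`. -/
noncomputable def diaG (g : Fin 3 → ZMod 3) : Matrix (Fin 3) (Fin 3) K :=
  Matrix.diagonal fun l => algebraMap (ZMod 3) K (g l)

/-- The matrix of `g ∈ G = (ℤ/3)³` on `K^{6N}`: on each of the `N` copies of `K³ × K³` it is
`(x, y) ↦ (x, (y₀ + g₀ x₀, y₁ + g₁ x₁, y₂ + g₂ x₂))`. -/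
noncomputable def repD (N : ℕ) (g : Fin 3 → ZMod 3) : Matrix (Idx N) (Idx N) K :=
  Matrix.blockDiagonal fun _ => Matrix.fromBlocks 1 0 (diaG g) 1

/-- `|G| = 27` times the value at the torsor `F` of Yasuda's function `v` of the representation
`repD N`: the length of `(𝓞 L)^{6N}` modulo the submodule generated by the tuning module, where
`L` is the algebra of the torsor. -/
noncomputable def v27D (N : ℕ) (F : ℕ →₀ K) : ℕ∞ :=
  colength (A := PowerSeries K) (L := AS (fser F)) (sigma (fser F))
    fun g => (repD N g).map PowerSeries.C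

theorem diaG_add (g h : Fin 3 → ZMod 3) : diaG (g + h) = diaG g + diaG h := by
  unfold diaG
  rw [Matrix.diagonal_add]
  congr 1
  funext l
  simp

theorem repD_add (N : ℕ) (g h : Fin 3 → ZMod 3) : repD N (g + h) = repD N g * repD N h := by
  unfold repD
  rw [← Matrix.blockDiagonal_mul]
  congr 1
  funext r
  rw [Matrix.fromBlocks_multiply, diaG_add]
  simp [add_comm]

theorem repD_injective (N : ℕ) (hN : 1 ≤ N) : Function.Injective (repD N) := by
  intro g h hgh
  funext l
  have h1 := congrFun (congrFun hgh (Sum.inr l, (⟨0, hN⟩ : Fin N))) (Sum.inl l, (⟨0, hN⟩ : Fin N))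
  simp only [repD, Matrix.blockDiagonal_apply, if_true, Matrix.fromBlocks_apply₂₁, diaG,
    Matrix.diagonal_apply_eq] at h1
  exact (algebraMap (ZMod 3) K).injective h1

/-- the fixed locus of `g ≠ 0` has codimension at least `N` -/
theorem repD_rank (N : ℕ) (g : Fin 3 → ZMod 3) (hg : g ≠ 0) : N ≤ (repD N g - 1).rank := by
  obtain ⟨l, hl⟩ : ∃ l, g l ≠ 0 := by
    by_contra h
    push Not at h
    exact hg (funext h)
  have hl' : algebraMap (ZMod 3) K (g l) ≠ 0 := by
    intro h
    exact hl ((algebraMap (ZMod 3) K).injective (by rw [h, map_zero]))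
  -- the columns `(inl l, r)` are linearly independent
  have hsub : ∀ r : Fin N, (repD N g - 1).col (Sum.inl l, r) =
      Pi.single (Sum.inr l, r) (algebraMap (ZMod 3) K (g l)) := by
    intro r
    funext p
    obtain ⟨a, s⟩ := p
    simp only [Matrix.col_apply, Matrix.sub_apply, repD, Matrix.blockDiagonal_apply,
      Pi.single_apply, Prod.mk.injEq]
    rcases a with i | i
    · by_cases hs : s = r
      · subst hs
        by_cases hi : i = l
        · subst hi
          simp
        · simp [hi]
      · simp [hs]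
    · by_cases hs : s = r
      · subst hs
        by_cases hi : i = l
        · subst hi
          simp [diaG]
        · simp [diaG, hi]
      · simp [hs]
  have hli : LinearIndependent K (fun r : Fin N => (repD N g - 1).col (Sum.inl l, r)) := by
    have h1 : (fun r : Fin N => (repD N g - 1).col (Sum.inl l, r)) =
        fun r : Fin N => (Units.mk0 _ hl' : Kˣ) •
          (Pi.single (Sum.inr l, r) 1 : Idx N → K) := by
      funext r
      rw [hsub]
      funext p
      simp only [Pi.single_apply, Pi.smul_apply, Units.smul_def, Units.val_mk0, smul_eq_mul]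
      split_ifs <;> simp
    rw [h1]
    have h2 : LinearIndependent K (fun r : Fin N => (Pi.single (Sum.inr l, r) 1 : Idx N → K)) := by
      have h3 := (Pi.basisFun K (Idx N)).linearIndependent
      have h4 := h3.comp (fun r : Fin N => ((Sum.inr l, r) : Idx N)) (by
        intro r s hrs
        simpa using hrs)
      convert h4 using 1
      funext r
      simp [Pi.basisFun_apply]
    exact h2.units_smul (fun _ => Units.mk0 _ hl')
  have h2 : N ≤ Module.finrank K (Submodule.span K (Set.range (repD N g - 1).col)) := by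
    have h3 : Module.finrank K (Submodule.span K (Set.range fun r : Fin N =>
        (repD N g - 1).col (Sum.inl l, r))) = N := by
      rw [finrank_span_eq_card hli, Fintype.card_fin]
    have h4 : Module.finrank K (Submodule.span K (Set.range fun r : Fin N =>
        (repD N g - 1).col (Sum.inl l, r))) ≤
        Module.finrank K (Submodule.span K (Set.range (repD N g - 1).col)) := by
      apply Submodule.finrank_mono
      apply Submodule.span_mono
      rintro _ ⟨r, rfl⟩
      exact ⟨_, rfl⟩
    omega
  rwa [← Matrix.rank_eq_finrank_span_cols] at h2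

/-- the `i`-th coordinate of `A x + y` in the torsor algebra -/
noncomputable def linD (F : ℕ →₀ K) (x : Fin 3 → PowerSeries K) (y : Fin 3 → LaurentSeries K)
    (i : Fin 3) : AS (fser F) :=
  algebraMap (PowerSeries K) (AS (fser F)) (x i) * gen (fser F) i +
    algebraMap (LaurentSeries K) (AS (fser F)) (y i)

theorem linD_eq (F : ℕ →₀ K) (x : Fin 3 → PowerSeries K) (y : Fin 3 → LaurentSeries K)
    (i : Fin 3) : linD F x y i =
      ∑ l, algebraMap (PowerSeries K) (AS (fser F)) ((Pi.single i (x i) : Fin 3 → PowerSeries K) l) *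
        gen (fser F) l + algebraMap (LaurentSeries K) (AS (fser F)) (y i) := by
  unfold linD
  congr 1
  rw [Finset.sum_eq_single i]
  · rw [Pi.single_eq_same]
  · intro l _ hl
    rw [Pi.single_eq_of_ne hl, map_zero, zero_mul]
  · intro h
    exact absurd (Finset.mem_univ i) h

/-- the projection of the tuning module -/
noncomputable def LamD (F : ℕ →₀ K) : Submodule (PowerSeries K) (Fin 3 → PowerSeries K) where
  carrier := {x | ∃ y : Fin 3 → LaurentSeries K, ∀ i, IsIntegral (PowerSeries K) (linD F x y i)}
  zero_mem' := ⟨0, fun i => by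
    have h : linD F 0 0 i = 0 := by simp [linD]
    rw [h]
    exact isIntegral_zero⟩
  add_mem' := by
    rintro x x' ⟨y, hy⟩ ⟨y', hy'⟩
    refine ⟨y + y', fun i => ?_⟩
    have h : linD F (x + x') (y + y') i = linD F x y i + linD F x' y' i := by
      simp only [linD, Pi.add_apply, map_add]
      ring
    rw [h]
    exact (hy i).add (hy' i)
  smul_mem' := by
    rintro a x ⟨y, hy⟩
    refine ⟨fun k => algebraMap (PowerSeries K) (LaurentSeries K) a * y k, fun i => ?_⟩
    have h : linD F (a • x) (fun k => algebraMap (PowerSeries K) (LaurentSeries K) a * y k) i =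
        algebraMap (PowerSeries K) (AS (fser F)) a * linD F x y i := by
      have h1 : algebraMap (LaurentSeries K) (AS (fser F))
          (algebraMap (PowerSeries K) (LaurentSeries K) a) =
          algebraMap (PowerSeries K) (AS (fser F)) a := rfl
      simp only [linD, Pi.smul_apply, smul_eq_mul, map_mul, h1]
      ring
    rw [h]
    exact isIntegral_algebraMap.mul (hy i)

theorem tuningD_sum (N : ℕ) (F : ℕ →₀ K) (g : Fin 3 → ZMod 3)
    (w : Idx N → integralClosure (PowerSeries K) (AS (fser F))) (a : Fin 3 ⊕ Fin 3) (r : Fin N) :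
    ∑ k, algebraMap (PowerSeries K) (AS (fser F)) ((repD N g).map PowerSeries.C (a, r) k) *
      (w k : AS (fser F)) =
    ∑ c, algebraMap (PowerSeries K) (AS (fser F))
      (PowerSeries.C (Matrix.fromBlocks 1 0 (diaG g) 1 a c)) * (w (c, r) : AS (fser F)) := by
  rw [Fintype.sum_prod_type]
  refine Finset.sum_congr rfl fun c _ => ?_
  rw [Finset.sum_eq_single r]
  · simp [repD, Matrix.blockDiagonal_apply]
  · intro r' _ hr
    simp [repD, Matrix.blockDiagonal_apply, hr.symm]
  · simp

theorem tuningD_inl (N : ℕ) (F : ℕ →₀ K) (g : Fin 3 → ZMod 3)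
    (w : Idx N → integralClosure (PowerSeries K) (AS (fser F))) (i : Fin 3) (r : Fin N) :
    ∑ k, algebraMap (PowerSeries K) (AS (fser F)) ((repD N g).map PowerSeries.C (Sum.inl i, r) k) *
      (w k : AS (fser F)) = w (Sum.inl i, r) := by
  rw [tuningD_sum, Fintype.sum_sum_type]
  simp [Matrix.one_apply]

theorem tuningD_inr (N : ℕ) (F : ℕ →₀ K) (g : Fin 3 → ZMod 3)
    (w : Idx N → integralClosure (PowerSeries K) (AS (fser F))) (i : Fin 3) (r : Fin N) :
    ∑ k, algebraMap (PowerSeries K) (AS (fser F)) ((repD N g).map PowerSeries.C (Sum.inr i, r) k) *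
      (w k : AS (fser F)) = algebraMap (PowerSeries K) (AS (fser F)) (g i).val *
        (w (Sum.inl i, r) : AS (fser F)) + w (Sum.inr i, r) := by
  have hg : ∀ c, PowerSeries.C (algebraMap (ZMod 3) K (g c)) = ((g c).val : PowerSeries K) := by
    intro c
    rw [← map_natCast (PowerSeries.C : K →+* PowerSeries K)]
    congr 1
    rw [← map_natCast (algebraMap (ZMod 3) K), ZMod.natCast_zmod_val]
  rw [tuningD_sum, Fintype.sum_sum_type]
  simp only [Matrix.fromBlocks_apply₂₁, Matrix.fromBlocks_apply₂₂, diaG, Matrix.one_apply]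
  congr 1
  · rw [Finset.sum_eq_single i]
    · rw [Matrix.diagonal_apply_eq, hg]
    · intro b _ hb
      rw [Matrix.diagonal_apply_ne _ (Ne.symm hb), map_zero, map_zero, zero_mul]
    · simp
  · simp

theorem tuningD_sigma (F : ℕ →₀ K) (g : Fin 3 → ZMod 3) (x : Fin 3 → PowerSeries K)
    (y : Fin 3 → LaurentSeries K) (i : Fin 3) :
    sigma (fser F) g (linD F x y i) = algebraMap (PowerSeries K) (AS (fser F)) (g i).val *
        algebraMap (PowerSeries K) (AS (fser F)) (x i) + linD F x y i := by
  rw [sigma_eq, linD, map_add, map_mul, sigma_algebraMap, sigma_gen, ← tuning_iff_tower,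
    sigma_algebraMap, map_natCast]
  ring

theorem tuningD_iff (N : ℕ) (F : ℕ →₀ K)
    (w : Idx N → integralClosure (PowerSeries K) (AS (fser F))) :
    w ∈ tuning (sigma (fser F)) (fun g => (repD N g).map PowerSeries.C) ↔
      ∀ r, ∃ x ∈ LamD F, ∃ y : Fin 3 → LaurentSeries K, ∀ i,
        (w (Sum.inl i, r) : AS (fser F)) = algebraMap (PowerSeries K) (AS (fser F)) (x i) ∧
        (w (Sum.inr i, r) : AS (fser F)) = linD F x y i := by
  constructor
  · intro hw r
    have h1 : ∀ i, ∃ z : PowerSeries K,
        (w (Sum.inl i, r) : AS (fser F)) = algebraMap (PowerSeries K) (AS (fser F)) z := by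
      intro i
      obtain ⟨y, hy⟩ := invariants (fser F) (w (Sum.inl i, r) : AS (fser F)) (fun g => by
        have := hw g (Sum.inl i, r)
        rw [tuningD_inl] at this
        exact this)
      have hi : IsIntegral (PowerSeries K) (algebraMap (LaurentSeries K) (AS (fser F)) y) := by
        rw [← hy]
        exact (w (Sum.inl i, r)).2
      obtain ⟨z, hz⟩ := integral_algebraMap F y hi
      exact ⟨z, by rw [hy, hz, tuning_iff_tower]⟩
    choose x hx using h1
    have h2 : ∀ i, ∃ y : LaurentSeries K, (w (Sum.inr i, r) : AS (fser F)) - linD F x 0 i =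
        algebraMap (LaurentSeries K) (AS (fser F)) y := by
      intro i
      refine invariants (fser F) _ fun g => ?_
      have := hw g (Sum.inr i, r)
      rw [tuningD_inr] at this
      have h3 := tuningD_sigma F g x 0 i
      rw [sigma_eq] at this h3 ⊢
      rw [map_sub, this, h3, hx]
      ring
    choose y hy using h2
    have h4 : ∀ i, (w (Sum.inr i, r) : AS (fser F)) = linD F x y i := by
      intro i
      have := hy i
      rw [sub_eq_iff_eq_add] at this
      rw [this, linD, linD]
      simp only [Pi.zero_apply, map_zero]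
      ring
    refine ⟨x, ⟨y, fun i => ?_⟩, y, fun i => ⟨hx i, h4 i⟩⟩
    rw [← h4 i]
    exact (w (Sum.inr i, r)).2
  · rintro h g ⟨a, r⟩
    obtain ⟨x, -, y, hxy⟩ := h r
    rcases a with i | i
    · show sigma (fser F) g (w (Sum.inl i, r)) = ∑ k, algebraMap (PowerSeries K) (AS (fser F))
        ((repD N g).map PowerSeries.C (Sum.inl i, r) k) * (w k : AS (fser F))
      rw [tuningD_inl, (hxy i).1, sigma_eq, ← tuning_iff_tower, sigma_algebraMap]
    · show sigma (fser F) g (w (Sum.inr i, r)) = ∑ k, algebraMap (PowerSeries K) (AS (fser F))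
        ((repD N g).map PowerSeries.C (Sum.inr i, r) k) * (w k : AS (fser F))
      rw [tuningD_inr, (hxy i).2, tuningD_sigma, (hxy i).1]

theorem v27D_eq_mul (N : ℕ) (F : ℕ →₀ K) : v27D N F = N * spanColength (PowerSeries K)
    {w : Fin 3 → integralClosure (PowerSeries K) (AS (fser F)) |
      ∃ x ∈ LamD F, ∀ i, w i = algebraMap (PowerSeries K) _ (x i)} := by
  classical
  unfold v27D colength
  have hlin : ∀ (y : Fin 3 → LaurentSeries K) (i : Fin 3),
      linD F 0 y i = algebraMap (LaurentSeries K) (AS (fser F)) (y i) := by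
    intro y i
    simp [linD]
  apply v27_eq_mul_aux
  · intro w hw r
    obtain ⟨x, hx, y, h⟩ := (tuningD_iff N F w).1 hw r
    refine ⟨x, hx, fun i => ?_⟩
    apply Subtype.ext
    exact (h i).1
  · rintro u ⟨x, hx, hu⟩ r
    obtain ⟨y, hy⟩ := hx
    refine ⟨fun k => Sum.elim (fun i => if k.2 = r then u i else 0)
      (fun i => if k.2 = r then ⟨linD F x y i, hy i⟩ else 0) k.1, ?_, ?_⟩
    · rw [tuningD_iff]
      intro r'
      by_cases hr : r' = r
      · refine ⟨x, ⟨y, hy⟩, y, fun i => ⟨?_, ?_⟩⟩
        · simp only [Sum.elim_inl, hr, if_true]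
          rw [hu i]
          rfl
        · simp only [Sum.elim_inr, hr, if_true]
      · refine ⟨0, (LamD F).zero_mem, 0, fun i => ⟨?_, ?_⟩⟩
        · simp only [Sum.elim_inl, hr, if_false]
          simp
        · simp only [Sum.elim_inr, hr, if_false]
          rw [hlin]
          simp
    · intro r'
      by_cases hr : r' = r
      · simp [hr]
      · simp [hr]
        rfl
  · intro j r
    rw [tuningD_iff]
    intro r'
    refine ⟨0, (LamD F).zero_mem, if r' = r then Pi.single j 1 else 0, fun i => ⟨?_, ?_⟩⟩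
    · rw [Pi.single_apply, if_neg (by simp)]
      simp
    · rw [hlin, Pi.single_apply]
      by_cases hr : r' = r
      · by_cases hi : i = j
        · simp [hr, hi]
        · simp [hr, hi]
      · simp [hr]

/-! ### The conditions -/

theorem integralD (F : ℕ →₀ K) (x : Fin 3 → PowerSeries K) (y : Fin 3 → LaurentSeries K)
    (i : Fin 3) : IsIntegral (PowerSeries K) (linD F x y i) ↔
      Nonneg (embP (x i) * alpha F i + emb (y i)) := by
  rw [linD_eq, integral_iff]
  have h : ∑ l, embP ((Pi.single i (x i) : Fin 3 → PowerSeries K) l) * alpha F l =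
      embP (x i) * alpha F i := by
    rw [Finset.sum_eq_single i]
    · rw [Pi.single_eq_same]
    · intro l _ hl
      rw [Pi.single_eq_of_ne hl, map_zero, zero_mul]
    · intro h
      exact absurd (Finset.mem_univ i) h
  rw [h]

/-- `top F l`: the least `m` with `coef F j l = 0` for `j ≥ 3 m` -/
noncomputable def top (F : ℕ →₀ K) (l : Fin 3) : ℕ :=
  sInf {m | ∀ j, 3 * m ≤ j → coef F j l = 0}

theorem top_nonempty (F : ℕ →₀ K) (l : Fin 3) :
    {m | ∀ j, 3 * m ≤ j → coef F j l = 0}.Nonempty := by
  refine ⟨F.support.sup id + 2, fun j hj => ?_⟩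
  rw [coef_eq_zero_of_top F j (by omega)]
  rfl

theorem top_spec (F : ℕ →₀ K) (l : Fin 3) (j : ℕ) (h : 3 * top F l ≤ j) : coef F j l = 0 :=
  Nat.sInf_mem (top_nonempty F l) j h

theorem top_le (F : ℕ →₀ K) (l : Fin 3) (m : ℕ) :
    top F l ≤ m ↔ ∀ j, 3 * m ≤ j → coef F j l = 0 := by
  constructor
  · intro h j hj
    exact top_spec F l j (by omega)
  · intro h
    exact Nat.sInf_le h

theorem frobInv_zero (e : ℕ) : frobInv e 0 = 0 := by
  unfold frobInv
  exact map_zero _

theorem frobInv_ne (e : ℕ) (c : K) (h : c ≠ 0) : frobInv e c ≠ 0 := by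
  unfold frobInv
  intro h0
  apply h
  have := congrArg (iterateFrobeniusEquiv K 3 e) h0
  rwa [RingEquiv.apply_symm_apply, map_zero] at this

/-- the conditions for the `l`-th coordinate -/
theorem cond_iff (F : ℕ →₀ K) (l : Fin 3) (J : ℕ) (hJ : ∀ j, J < j → coef F j = 0)
    (x : PowerSeries K) :
    (∀ e i : ℕ, 1 ≤ e → 1 ≤ i → ¬ 3 ∣ i → ∑ s ∈ Finset.range (J + 1), PowerSeries.coeff s x *
        frobInv e (coef F (i + 3 ^ e * s) l) = 0) ↔ PowerSeries.X ^ top F l ∣ x := by
  rw [PowerSeries.X_pow_dvd_iff]
  constructor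
  · intro h
    by_cases h0 : top F l = 0
    · intro m hm
      omega
    -- the top index
    have hex : ¬ ∀ j, 3 * (top F l - 1) ≤ j → coef F j l = 0 := by
      rw [← top_le]
      omega
    push Not at hex
    obtain ⟨j0, hj0, hc0⟩ := hex
    -- the largest index with nonzero coefficient
    obtain ⟨T, hT1, hT2⟩ : ∃ T, coef F T l ≠ 0 ∧ ∀ j, T < j → coef F j l = 0 := by
      classical
      have hb : ∀ j, coef F j l ≠ 0 → j ≤ J := by
        intro j hj
        by_contra hcon
        apply hj
        rw [hJ j (by omega)]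
        rfl
      refine ⟨Nat.findGreatest (fun j => coef F j l ≠ 0) J, ?_, ?_⟩
      · exact Nat.findGreatest_spec (P := fun j => coef F j l ≠ 0) (hb j0 hc0) hc0
      · intro j hj
        by_contra hne
        have h1 := Nat.le_findGreatest (P := fun j => coef F j l ≠ 0) (hb j hne) hne
        omega
    have hTge : j0 ≤ T := by
      by_contra hcon
      exact hc0 (hT2 j0 (by omega))
    have hTlt : T < 3 * top F l := by
      by_contra hcon
      exact hT1 (top_spec F l T (by omega))
    have hT3 : ¬ 3 ∣ T := by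
      intro hd
      apply hT1
      unfold coef
      rw [if_pos (Nat.mod_eq_zero_of_dvd hd)]
    have hTJ : T ≤ J := by
      by_contra hcon
      apply hT1
      rw [hJ T (by omega)]
      rfl
    intro m
    induction m using Nat.strong_induction_on with
    | _ m ih =>
      intro hm
      have hmT : 3 * m < T := by
        have : 3 * m ≤ T := by omega
        rcases this.lt_or_eq with h1 | h1
        · exact h1
        · exact absurd ⟨m, h1.symm⟩ hT3
      have h1 := h 1 (T - 3 * m) le_rfl (by omega) (by
        intro hd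
        apply hT3
        have h2 : T = (T - 3 * m) + 3 * m := by omega
        rw [h2]
        exact Dvd.dvd.add hd ⟨m, rfl⟩)
      rw [Finset.sum_eq_single m] at h1
      · have h2 : T - 3 * m + 3 ^ 1 * m = T := by omega
        rw [h2] at h1
        exact (mul_eq_zero.1 h1).resolve_right (frobInv_ne 1 _ hT1)
      · intro s _ hs
        rcases Nat.lt_or_gt_of_ne hs with h2 | h2
        · rw [ih s h2 (by omega), zero_mul]
        · rw [hT2 (T - 3 * m + 3 ^ 1 * s) (by omega), frobInv_zero, mul_zero]
      · intro hs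
        exfalso
        apply hs
        rw [Finset.mem_range]
        omega
  · intro h e i he hi h3
    refine Finset.sum_eq_zero fun s _ => ?_
    by_cases hs : s < top F l
    · rw [h s hs, zero_mul]
    · have h1 : s ≤ 3 ^ (e - 1) * s := Nat.le_mul_of_pos_left s (by positivity)
      have h2 : 3 ^ e * s = 3 * (3 ^ (e - 1) * s) := by
        have : 3 ^ e = 3 * 3 ^ (e - 1) := by
          rw [← pow_succ']
          congr 1
          omega
        rw [this, mul_assoc]
      rw [top_spec F l (i + 3 ^ e * s) (by omega), frobInv_zero, mul_zero]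

theorem LamD_iff (F : ℕ →₀ K) (x : Fin 3 → PowerSeries K) :
    x ∈ LamD F ↔ ∀ l, PowerSeries.X ^ top F l ∣ x l := by
  have hJ : ∀ j, F.support.sup id + 1 < j → coef F j = 0 := fun j hj =>
    coef_eq_zero_of_top F j (by omega)
  have hm : x ∈ LamD F ↔ ∃ y : Fin 3 → LaurentSeries K,
    ∀ i, IsIntegral (PowerSeries K) (linD F x y i) := Iff.rfl
  rw [hm]
  constructor
  · rintro ⟨y, hy⟩ l
    rw [← cond_iff F l _ hJ]
    intro e i he hi h3
    have h1 := (integralD F x y l).1 (hy l)
    have hr : -(i : ℚ) / 3 ^ e < 0 := by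
      have h2 : (0 : ℚ) < i := by exact_mod_cast hi
      exact div_neg_of_neg_of_pos (by linarith) (by positivity)
    have h2 := h1 _ hr
    rwa [HahnSeries.coeff_add, emb_coeff_ne (y l) _ (lattice_iff_int e i he h3), add_zero,
      coeff_mul_alpha F _ hJ (x l) l e i he hi h3] at h2
  · intro h
    refine ⟨0, fun l => ?_⟩
    rw [integralD]
    intro r hr
    rw [HahnSeries.coeff_add]
    have h0 : emb ((0 : Fin 3 → LaurentSeries K) l) = 0 := by
      rw [Pi.zero_apply, map_zero]
    rw [h0, HahnSeries.coeff_zero, add_zero]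
    by_cases hex : ∃ e i0 : ℕ, 1 ≤ e ∧ 1 ≤ i0 ∧ ¬ 3 ∣ i0 ∧ r = -(i0 : ℚ) / 3 ^ e
    · obtain ⟨e, i0, he, hi, h3, rfl⟩ := hex
      rw [coeff_mul_alpha F _ hJ (x l) l e i0 he hi h3]
      exact (cond_iff F l _ hJ (x l)).2 (h l) e i0 he hi h3
    · apply coeff_mul_alpha_ne F _ l r hr
      intro e i0 he hi h3 hr'
      exact hex ⟨e, i0, he, hi, h3, hr'⟩

/-- the value of `v` (for one copy) -/
noncomputable def vD (F : ℕ →₀ K) : ℕ := ∑ l, top F l

theorem finrank_X_pow (m : ℕ) : FiniteDimensional K (PowerSeries K ⧸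
      (Ideal.span {(PowerSeries.X : PowerSeries K) ^ m})) ∧
    Module.finrank K (PowerSeries K ⧸ (Ideal.span {(PowerSeries.X : PowerSeries K) ^ m})) = m := by
  let φ : PowerSeries K →ₗ[K] (Fin m → K) :=
    { toFun := fun f i => PowerSeries.coeff (i : ℕ) f
      map_add' := fun f g => by funext i; simp
      map_smul' := fun c f => by funext i; simp }
  have hφ : ∀ f i, φ f i = PowerSeries.coeff (i : ℕ) f := fun f i => rfl
  have hsurj : Function.Surjective φ := by
    intro v
    refine ⟨PowerSeries.mk fun n => if h : n < m then v ⟨n, h⟩ else 0, ?_⟩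
    funext i
    rw [hφ, PowerSeries.coeff_mk, dif_pos i.2]
  have hker : LinearMap.ker φ =
      (Ideal.span {(PowerSeries.X : PowerSeries K) ^ m}).restrictScalars K := by
    ext f
    rw [LinearMap.mem_ker, Submodule.restrictScalars_mem, Ideal.mem_span_singleton,
      PowerSeries.X_pow_dvd_iff]
    constructor
    · intro h n hn
      have := congrFun h ⟨n, hn⟩
      rwa [hφ] at this
    · intro h
      funext i
      rw [hφ]
      exact h i i.2
  have e1 : (PowerSeries K ⧸ (Ideal.span {(PowerSeries.X : PowerSeries K) ^ m}).restrictScalars K)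
      ≃ₗ[K] (Fin m → K) :=
    (Submodule.quotEquivOfEq _ _ hker.symm).trans (φ.quotKerEquivOfSurjective hsurj)
  have e2 := Submodule.Quotient.restrictScalarsEquiv K
    (Ideal.span {(PowerSeries.X : PowerSeries K) ^ m})
  have e3 := e2.symm.trans e1
  exact ⟨e3.symm.finiteDimensional, by rw [e3.finrank_eq, Module.finrank_fin_fun]⟩

theorem length_LamD (F : ℕ →₀ K) :
    Module.length (PowerSeries K) ((Fin 3 → PowerSeries K) ⧸ LamD F) = (vD F : ℕ∞) := by
  have h1 : LamD F = Submodule.pi Set.univ fun l : Fin 3 =>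
      (Ideal.span {(PowerSeries.X : PowerSeries K) ^ top F l}) := by
    ext x
    rw [LamD_iff, Submodule.mem_pi]
    simp only [Set.mem_univ, true_imp_iff, Ideal.mem_span_singleton]
  have e : ((Fin 3 → PowerSeries K) ⧸ LamD F) ≃ₗ[PowerSeries K]
      ((l : Fin 3) → (PowerSeries K ⧸ (Ideal.span {(PowerSeries.X : PowerSeries K) ^ top F l}))) :=
    (Submodule.quotEquivOfEq _ _ h1).trans (Submodule.quotientPi _)
  have h2 : ∀ l : Fin 3, Module.length (PowerSeries K)
      (PowerSeries K ⧸ (Ideal.span {(PowerSeries.X : PowerSeries K) ^ top F l})) =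
      (top F l : ℕ∞) := by
    intro l
    have h3 := (finrank_X_pow (top F l)).1
    rw [length_eq_finrank, (finrank_X_pow (top F l)).2]
  rw [e.length_eq, Module.length_pi_of_fintype]
  simp only [h2, vD]
  push_cast
  rfl

theorem v27D_eq (N : ℕ) (F : ℕ →₀ K) : v27D N F = ((27 * N * vD F : ℕ) : ℕ∞) := by
  obtain ⟨b⟩ := free_rank F
  rw [v27D_eq_mul, length_free b (LamD F), length_LamD]
  push_cast
  ring

end Pool.Agent.R921
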