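import Pool.Agent.R921.WR1
import Pool.Agent.Helper449.MST.U

/-!
# Level sets of `v` and the sequence of partial sums
-/

namespace Pool.Agent.R921

open MvPolynomial Pool.Agent.Helper449.MST

theorem coef_index (F : ℕ →₀ K) (l : Fin 3) (k : ℕ) :
    coef F (3 * (k / 2) + k % 2 + 1) l = F (3 * k + l) := by
  unfold coef
  rw [if_neg (by omega)]
  congr 1
  omega

/-- `top F l ≤ m` in terms of the coordinates of the torsor -/
theorem top_le_iff (F : ℕ →₀ K) (l : Fin 3) (m : ℕ) :
    top F l ≤ m ↔ ∀ k, 2 * m ≤ k → F (3 * k + l) = 0 := by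
  rw [top_le]
  constructor
  · intro h k hk
    rw [← coef_index F l k]
    exact h _ (by omega)
  · intro h j hj
    by_cases h3 : j % 3 = 0
    · unfold coef
      rw [if_pos h3]
    · have h1 := coef_index F l (2 * (j / 3) + j % 3 - 1)
      have h2 : 3 * ((2 * (j / 3) + j % 3 - 1) / 2) + (2 * (j / 3) + j % 3 - 1) % 2 + 1 = j := by
        omega
      rw [h2] at h1
      rw [h1]
      exact h _ (by omega)

theorem support_boundD (F : ℕ →₀ K) (i : ℕ) (hi : 6 * vD F ≤ i) : F i = 0 := by
  have h1 : top F ⟨i % 3, Nat.mod_lt _ (by norm_num)⟩ ≤ vD F :=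
    Finset.single_le_sum (f := fun l : Fin 3 => top F l) (fun _ _ => Nat.zero_le _)
      (Finset.mem_univ _)
  have h2 := (top_le_iff F ⟨i % 3, Nat.mod_lt _ (by norm_num)⟩ (vD F)).1 h1 (i / 3) (by omega)
  have h3 : 3 * (i / 3) + ((⟨i % 3, Nat.mod_lt _ (by norm_num)⟩ : Fin 3) : ℕ) = i := by
    show 3 * (i / 3) + i % 3 = i
    omega
  rwa [h3] at h2

/-- The level set `v = a` for one copy (`v = N a` for `N` copies), a subset of the space `K^{6a}`
of the torsors with only the first `6a` coordinates nonzero. -/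
def levelD (a : ℕ) : Set (Fin (6 * a) → K) := {x | vD (ofFin x) = a}

/-- The level set `v = b / 27`, as a subset of the space `K^b` of the torsors with only the first
`b` coordinates nonzero. -/
def levelYD (N b : ℕ) : Set (Fin b → K) := {x | v27D N (ofFin x) = b}

/-! ### Constructibility -/

theorem constr_forall {n : ℕ} {ι : Type} (s : Finset ι) (S : ι → Set (Fin n → K))
    (h : ∀ i ∈ s, Constr (S i)) : Constr {x | ∀ i ∈ s, x ∈ S i} := by
  classical
  induction s using Finset.induction_on with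
  | empty =>
    have h0 := constr_univ n
    have h1 : {x : Fin n → K | ∀ i ∈ (∅ : Finset ι), x ∈ S i} = Set.univ := by
      ext x
      simp
    rw [h1]
    exact h0
  | insert a s _ ih =>
    have h1 : {x : Fin n → K | ∀ i ∈ insert a s, x ∈ S i} =
        S a ∩ {x : Fin n → K | ∀ i ∈ s, x ∈ S i} := by
      ext x
      simp
    rw [h1]
    exact (h a (Finset.mem_insert_self a s)).inter
      (ih fun i hi => h i (Finset.mem_insert_of_mem hi))

theorem constr_exists {n : ℕ} {ι : Type} (s : Finset ι) (S : ι → Set (Fin n → K))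
    (h : ∀ i ∈ s, Constr (S i)) : Constr {x | ∃ i ∈ s, x ∈ S i} := by
  have h1 := (constr_forall s (fun i => (S i)ᶜ) fun i hi => (h i hi).compl).compl
  have h2 : {x : Fin n → K | ∃ i ∈ s, x ∈ S i} = {x : Fin n → K | ∀ i ∈ s, x ∈ (S i)ᶜ}ᶜ := by
    ext x
    simp
  rw [h2]
  exact h1

theorem constr_top_le (n : ℕ) (l : Fin 3) (m : ℕ) :
    Constr {x : Fin n → K | top (ofFin x) l ≤ m} := by
  have h1 : {x : Fin n → K | top (ofFin x) l ≤ m} =
      {x : Fin n → K | ∀ i ∈ Finset.univ.filter (fun i : Fin n => (i : ℕ) % 3 = l ∧ 6 * m ≤ i),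
        x ∈ {x : Fin n → K | eval x (X i) = 0}} := by
    ext x
    simp only [Set.mem_setOf_eq, top_le_iff, Finset.mem_filter, Finset.mem_univ, true_and,
      eval_X]
    constructor
    · rintro h i ⟨h1, h2⟩
      have h3 := h ((i : ℕ) / 3) (by omega)
      have h4 : 3 * ((i : ℕ) / 3) + (l : ℕ) = i := by omega
      rw [h4, level_isom_apply, dif_pos i.2] at h3
      exact h3
    · intro h k hk
      rw [level_isom_apply]
      split_ifs with hn
      · have hl := l.2
        exact h ⟨3 * k + l, hn⟩ ⟨by show (3 * k + (l : ℕ)) % 3 = l; omega,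
          by show 6 * m ≤ 3 * k + (l : ℕ); omega⟩
      · rfl
  rw [h1]
  exact constr_forall _ _ fun i _ => Constr.zero _

theorem constr_top_eq (n : ℕ) (l : Fin 3) (m : ℕ) :
    Constr {x : Fin n → K | top (ofFin x) l = m} := by
  rcases Nat.eq_zero_or_pos m with rfl | hm
  · have h1 : {x : Fin n → K | top (ofFin x) l = 0} = {x : Fin n → K | top (ofFin x) l ≤ 0} := by
      ext x
      simp
    rw [h1]
    exact constr_top_le n l 0
  · have h1 : {x : Fin n → K | top (ofFin x) l = m} = {x : Fin n → K | top (ofFin x) l ≤ m} ∩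
        {x : Fin n → K | top (ofFin x) l ≤ m - 1}ᶜ := by
      ext x
      simp only [Set.mem_setOf_eq, Set.mem_inter_iff, Set.mem_compl_iff]
      omega
    rw [h1]
    exact (constr_top_le n l m).inter (constr_top_le n l (m - 1)).compl

theorem constr_vD (n a : ℕ) : Constr {x : Fin n → K | vD (ofFin x) = a} := by
  have h1 : {x : Fin n → K | vD (ofFin x) = a} =
      {x : Fin n → K | ∃ p ∈ (Fintype.piFinset fun _ : Fin 3 => Finset.range (a + 1)).filter
        (fun p => ∑ l, p l = a), x ∈ {x : Fin n → K | ∀ l ∈ (Finset.univ : Finset (Fin 3)),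
          x ∈ {x : Fin n → K | top (ofFin x) l = p l}}} := by
    ext x
    simp only [Set.mem_setOf_eq, Finset.mem_filter, Fintype.mem_piFinset, Finset.mem_range,
      Finset.mem_univ, true_imp_iff]
    constructor
    · intro h
      refine ⟨fun l => top (ofFin x) l, ⟨fun l => ?_, h⟩, fun l => rfl⟩
      have h1 : top (ofFin x) l ≤ vD (ofFin x) :=
        Finset.single_le_sum (f := fun l : Fin 3 => top (ofFin x) l) (fun _ _ => Nat.zero_le _)
          (Finset.mem_univ l)
      exact Nat.lt_succ_of_le (h1.trans h.le)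
    · rintro ⟨p, ⟨-, hp⟩, hx⟩
      rw [← hp]
      exact Finset.sum_congr rfl fun l _ => hx l
  rw [h1]
  exact constr_exists _ _ fun p _ => constr_forall _ _ fun l _ => constr_top_eq n l (p l)

theorem constr_levelD (a : ℕ) : Constr (levelD a) := constr_vD _ _

theorem constr_levelYD (N b : ℕ) : Constr (levelYD N b) := by
  have hset : levelYD N b = {x : Fin b → K | 27 * N * vD (ofFin x) = b} := by
    ext x
    simp only [levelYD, Set.mem_setOf_eq, v27D_eq, Nat.cast_inj]
  rw [hset]
  have hempty : Constr (∅ : Set (Fin b → K)) := by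
    have h := (constr_univ b).compl
    rwa [Set.compl_univ] at h
  rcases Nat.eq_zero_or_pos N with hN | hN
  · by_cases hb : 0 = b
    · have : {x : Fin b → K | 27 * N * vD (ofFin x) = b} = Set.univ := by
        ext x
        simp only [Set.mem_setOf_eq, Set.mem_univ, iff_true, hN, Nat.mul_zero, Nat.zero_mul]
        exact hb
      rw [this]
      exact constr_univ b
    · have : {x : Fin b → K | 27 * N * vD (ofFin x) = b} = ∅ := by
        ext x
        simp only [Set.mem_setOf_eq, Set.mem_empty_iff_false, iff_false, hN, Nat.mul_zero,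
          Nat.zero_mul]
        exact hb
      rw [this]
      exact hempty
  · by_cases hd : 27 * N ∣ b
    · obtain ⟨a, ha⟩ := hd
      have : {x : Fin b → K | 27 * N * vD (ofFin x) = b} =
          {x : Fin b → K | vD (ofFin x) = a} := by
        ext x
        simp only [Set.mem_setOf_eq]
        constructor
        · intro h
          have h2 : 27 * N * vD (ofFin x) = 27 * N * a := h.trans ha
          exact Nat.eq_of_mul_eq_mul_left (by omega) h2
        · intro h
          rw [h]
          exact ha.symm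
      rw [this]
      exact constr_vD b a
    · have : {x : Fin b → K | 27 * N * vD (ofFin x) = b} = ∅ := by
        ext x
        simp only [Set.mem_setOf_eq, Set.mem_empty_iff_false, iff_false]
        intro h
        exact hd ⟨_, h.symm⟩
      rw [this]
      exact hempty

/-- The partial sums `∑_{b ≤ n} {v⁻¹(b / 27)} L^{6N - b / 27}` of the stringy motive of
`K^{6N} / G`, by Yasuda's formula. -/
noncomputable def stringyD (N n : ℕ) : FreeAbelianGroup Gen :=
  ∑ b ∈ Finset.range (n + 1),
    FreeAbelianGroup.of ⟨b, levelYD N b, constr_levelYD N b, 27 * (6 * (N : ℤ)) - b⟩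

/-- the same in terms of `levelD` -/
noncomputable def partialSumD (N n : ℕ) : FreeAbelianGroup Gen :=
  ∑ a ∈ Finset.range (n + 1),
    FreeAbelianGroup.of ⟨6 * a, levelD a, constr_levelD a, 27 * (6 * (N : ℤ) - N * a)⟩

theorem levelD_isom_mem (N a : ℕ) (hN : 1 ≤ N) (x : Fin (27 * N * a) → K) :
    x ∈ levelYD N (27 * N * a) ↔ vD (ofFin x) = a := by
  show v27D N (ofFin x) = ((27 * N * a : ℕ) : ℕ∞) ↔ _
  rw [v27D_eq, Nat.cast_inj]
  have h : 0 < 27 * N := by omega
  exact Nat.mul_right_inj h.ne'

theorem levelD_isom_of (n m a : ℕ) (x : Fin n → K) (hm : 6 * a ≤ m) (hx : vD (ofFin x) = a) :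
    ofFin (level_isom_f n m x) = ofFin x := by
  ext i
  rw [level_isom_apply, level_isom_apply]
  by_cases h : i < m
  · rw [dif_pos h]
    rfl
  · rw [dif_neg h]
    have h0 := support_boundD (ofFin x) i (by rw [hx]; omega)
    rw [level_isom_apply] at h0
    exact h0.symm

theorem levelD_isom (N a : ℕ) (hN : 1 ≤ N) : Isom (levelYD N (27 * N * a)) (levelD a) := by
  have hle : 6 * a ≤ 27 * N * a := Nat.mul_le_mul_right a (by omega)
  refine ⟨level_isom_f _ _, level_isom_f _ _, level_isom_reg _ _ _, level_isom_reg _ _ _, ?_, ?_,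
    ?_, ?_⟩
  · intro x hx
    have h1 := (levelD_isom_mem N a hN x).1 hx
    show vD (ofFin (level_isom_f _ _ x)) = a
    rw [levelD_isom_of _ _ a x le_rfl h1, h1]
  · intro y hy
    have h1 : vD (ofFin y) = a := hy
    rw [levelD_isom_mem N a hN, levelD_isom_of _ _ a y hle h1, h1]
  · intro x hx
    have h1 := (levelD_isom_mem N a hN x).1 hx
    apply level_isom_inj
    have h2 := levelD_isom_of _ _ a x (le_refl (6 * a)) h1
    rw [levelD_isom_of _ _ a _ hle (by rw [h2, h1]), h2]
  · intro y hy
    have h1 : vD (ofFin y) = a := hy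
    apply level_isom_inj
    have h2 := levelD_isom_of _ _ a y hle h1
    rw [levelD_isom_of _ _ a _ le_rfl (by rw [h2, h1]), h2]

/-- term of `stringyD` -/
noncomputable def termY (N b : ℕ) : FreeAbelianGroup Gen :=
  FreeAbelianGroup.of ⟨b, levelYD N b, constr_levelYD N b, 27 * (6 * (N : ℤ)) - b⟩

/-- term of `partialSumD` -/
noncomputable def termS (N a : ℕ) : FreeAbelianGroup Gen :=
  FreeAbelianGroup.of ⟨6 * a, levelD a, constr_levelD a, 27 * (6 * (N : ℤ) - N * a)⟩

theorem termY_empty (N b : ℕ) (h : ¬ 27 * N ∣ b) : termY N b ∈ relSub := by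
  apply empty_rel
  rw [Set.eq_empty_iff_forall_notMem]
  intro x hx
  have hx' : v27D N (ofFin x) = (b : ℕ∞) := hx
  rw [v27D_eq] at hx'
  have h2 : 27 * N * vD (ofFin x) = b := by exact_mod_cast hx'
  exact h ⟨_, h2.symm⟩

theorem termY_sub (N a : ℕ) (hN : 1 ≤ N) : termY N (27 * N * a) - termS N a ∈ relSub := by
  have e : 27 * (6 * (N : ℤ)) - ((27 * N * a : ℕ) : ℤ) = 27 * (6 * (N : ℤ) - N * a) := by
    push_cast
    ring
  unfold termY termS
  rw [e]
  exact AddSubgroup.subset_closure (Rel.iso _ _ (levelD_isom N a hN) _)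

theorem stringyD_sub (N n : ℕ) (hN : 1 ≤ N) :
    stringyD N n - partialSumD N (n / (27 * N)) ∈ relSub := by
  change ∑ b ∈ Finset.range (n + 1), termY N b
      - ∑ a ∈ Finset.range (n / (27 * N) + 1), termS N a ∈ relSub
  induction n with
  | zero =>
    have h := termY_sub N 0 hN
    rw [Nat.zero_div, zero_add, Finset.sum_range_one, Finset.sum_range_one]
    exact h
  | succ n ih =>
    rw [Finset.sum_range_succ _ (n + 1)]
    by_cases h : 27 * N ∣ n + 1
    · have e1 : (n + 1) / (27 * N) = n / (27 * N) + 1 := by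
        rw [Nat.succ_div, if_pos h]
      have e2 : 27 * N * (n / (27 * N) + 1) = n + 1 := by
        rw [← e1]
        exact Nat.mul_div_cancel' h
      rw [e1, Finset.sum_range_succ _ (n / (27 * N) + 1)]
      have h2 := termY_sub N (n / (27 * N) + 1) hN
      rw [e2] at h2
      have h3 := relSub.add_mem ih h2
      rwa [sub_add_sub_comm] at h3
    · have e1 : (n + 1) / (27 * N) = n / (27 * N) := by
        rw [Nat.succ_div, if_neg h, Nat.add_zero]
      rw [e1]
      have h3 := relSub.add_mem ih (termY_empty N (n + 1) h)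
      rwa [sub_add_eq_add_sub] at h3

/-! ### Convergence -/

theorem termS_mem (m : ℤ) (a : ℕ) (ha : (48 + m).toNat ≤ a) : termS 8 a ∈ Fil m := by
  apply AddSubgroup.subset_closure
  refine ⟨⟨6 * a, levelD a, constr_levelD a, 27 * (6 * ((8 : ℕ) : ℤ) - ((8 : ℕ) : ℤ) * a)⟩, 6 * a,
    ?_, ?_, rfl⟩
  · refine (ringKrullDim_quotient_le _).trans ?_
    rw [MvPolynomial.ringKrullDim_of_isNoetherianRing, ringKrullDim_eq_zero_of_field]
    simp
  · show 27 * ((6 * a : ℕ) : ℤ) + 27 * (6 * ((8 : ℕ) : ℤ) - ((8 : ℕ) : ℤ) * a) ≤ -(27 * m)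
    push_cast
    have : 48 + m ≤ (a : ℤ) := by omega
    omega

theorem convergesD_aux (m : ℤ) (n : ℕ) (hn : (48 + m).toNat ≤ n) :
    partialSumD 8 n - partialSumD 8 (48 + m).toNat ∈ Fil m := by
  induction n, hn using Nat.le_induction with
  | base => rw [sub_self]; exact (Fil m).zero_mem
  | succ n hn ih =>
    have h1 : partialSumD 8 (n + 1) - partialSumD 8 (48 + m).toNat =
        (partialSumD 8 n - partialSumD 8 (48 + m).toNat) + termS 8 (n + 1) := by
      have h2 : partialSumD 8 (n + 1) = partialSumD 8 n + termS 8 (n + 1) := by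
        unfold partialSumD
        rw [Finset.sum_range_succ]
        rfl
      rw [h2]
      abel
    rw [h1]
    exact (Fil m).add_mem ih (termS_mem m (n + 1) (by omega))

theorem stringyD_converges : ConvergesMod relSub (stringyD 8) := by
  intro m
  refine ⟨(48 + m).toNat * (27 * 8), fun n hn n' hn' => ?_⟩
  have h1 : (48 + m).toNat ≤ n / (27 * 8) := (Nat.le_div_iff_mul_le (by norm_num)).2 hn
  have h2 : (48 + m).toNat ≤ n' / (27 * 8) := (Nat.le_div_iff_mul_le (by norm_num)).2 hn'
  have h3 : partialSumD 8 (n / (27 * 8)) - partialSumD 8 (n' / (27 * 8)) ∈ relSub ⊔ Fil m := by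
    apply (le_sup_right : Fil m ≤ relSub ⊔ Fil m)
    have h := (Fil m).sub_mem (convergesD_aux m _ h1) (convergesD_aux m _ h2)
    rwa [sub_sub_sub_cancel_right] at h
  have h4 : stringyD 8 n - partialSumD 8 (n / (27 * 8)) ∈ relSub ⊔ Fil m :=
    (le_sup_left : relSub ≤ relSub ⊔ Fil m) (stringyD_sub 8 n (by norm_num))
  have h5 : stringyD 8 n' - partialSumD 8 (n' / (27 * 8)) ∈ relSub ⊔ Fil m :=
    (le_sup_left : relSub ≤ relSub ⊔ Fil m) (stringyD_sub 8 n' (by norm_num))
  have h6 : stringyD 8 n - stringyD 8 n' =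
      (stringyD 8 n - partialSumD 8 (n / (27 * 8))) +
      (partialSumD 8 (n / (27 * 8)) - partialSumD 8 (n' / (27 * 8))) -
      (stringyD 8 n' - partialSumD 8 (n' / (27 * 8))) := by abel
  rw [h6]
  exact sub_mem (add_mem h4 h3) h5

theorem support_YD (F : ℕ →₀ K) (b : ℕ) (h : v27D 8 F = b) (i : ℕ) (hi : b ≤ i) : F i = 0 := by
  rw [v27D_eq] at h
  have h2 : 27 * 8 * vD F = b := by exact_mod_cast h
  exact support_boundD F i (by omega)

end Pool.Agent.R921
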