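import Pool.Agent.R921.WR2

/-!
# Counting points
-/

namespace Pool.Agent.R921

open MvPolynomial Pool.Agent.Helper449.MST

/-- the field with `q j` elements -/
noncomputable def Fq (j : ℕ) : Finset K :=
  (pts_finite_aux (q j) (by unfold q; exact Nat.one_lt_pow (by positivity) (by norm_num))).toFinset

theorem mem_Fq (j : ℕ) (z : K) : z ∈ Fq j ↔ z ^ q j = z := by
  unfold Fq
  rw [Set.Finite.mem_toFinset]
  rfl

theorem card_Fq (j : ℕ) : (Fq j).card = q j := by
  unfold Fq
  rw [← Set.ncard_eq_toFinset_card _ _]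
  unfold q
  exact card_fixed _ (Nat.mul_pos (by norm_num) (Nat.factorial_pos j))

theorem zero_mem_Fq (j : ℕ) : (0 : K) ∈ Fq j := by
  rw [mem_Fq]
  exact zero_pow (cnt_bij_q_ne j)

/-- the box -/
noncomputable def Box (j n : ℕ) : Finset (Fin n → K) := Fintype.piFinset fun _ => Fq j

theorem mem_Box (j n : ℕ) (x : Fin n → K) : x ∈ Box j n ↔ ∀ i, x i ^ q j = x i := by
  unfold Box
  rw [Fintype.mem_piFinset]
  exact forall_congr' fun i => mem_Fq j (x i)

theorem card_Box (j n : ℕ) : (Box j n).card = q j ^ n := by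
  unfold Box
  rw [Fintype.card_piFinset]
  simp [card_Fq]

/-- for one coordinate: the least `m` with `h k = 0` for `k ≥ 2 m` -/
noncomputable def tau {n : ℕ} (h : Fin n → K) : ℕ :=
  sInf {m : ℕ | ∀ k : Fin n, 2 * m ≤ (k : ℕ) → h k = 0}

theorem tau_nonempty {n : ℕ} (h : Fin n → K) :
    {m : ℕ | ∀ k : Fin n, 2 * m ≤ (k : ℕ) → h k = 0}.Nonempty :=
  ⟨n, fun k hk => absurd k.2 (by omega)⟩

theorem tau_le {n : ℕ} (h : Fin n → K) (m : ℕ) :
    tau h ≤ m ↔ ∀ k : Fin n, 2 * m ≤ (k : ℕ) → h k = 0 := by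
  constructor
  · intro hm k hk
    exact Nat.sInf_mem (tau_nonempty h) k (by
      have : 2 * tau h ≤ (k : ℕ) := by omega
      exact this)
  · intro hm
    exact Nat.sInf_le hm

theorem tau_le_n {n : ℕ} (h : Fin (2 * n) → K) : tau h ≤ n := by
  rw [tau_le]
  intro k hk
  exact absurd k.2 (by omega)

theorem card_tau_le (j n m : ℕ) (hm : m ≤ n) :
    ((Box j (2 * n)).filter fun h => tau h ≤ m).card = q j ^ (2 * m) := by
  classical
  have h1 : ((Box j (2 * n)).filter fun h => tau h ≤ m) =
      Fintype.piFinset fun k : Fin (2 * n) => if (k : ℕ) < 2 * m then Fq j else {0} := by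
    ext h
    rw [Finset.mem_filter, mem_Box, tau_le, Fintype.mem_piFinset]
    constructor
    · rintro ⟨h1, h2⟩ k
      split_ifs with hk
      · exact (mem_Fq j _).2 (h1 k)
      · rw [Finset.mem_singleton]
        exact h2 k (by omega)
    · intro h1
      constructor
      · intro k
        have h2 := h1 k
        split_ifs at h2 with hk
        · exact (mem_Fq j _).1 h2
        · rw [Finset.mem_singleton] at h2
          rw [h2]
          exact zero_pow (cnt_bij_q_ne j)
      · intro k hk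
        have h2 := h1 k
        rw [if_neg (by omega), Finset.mem_singleton] at h2
        exact h2
  rw [h1, Fintype.card_piFinset]
  have h2 : ∀ k : Fin (2 * n), (if (k : ℕ) < 2 * m then Fq j else ({0} : Finset K)).card =
      if (k : ℕ) < 2 * m then q j else 1 := by
    intro k
    split_ifs
    · exact card_Fq j
    · simp
  simp only [h2]
  rw [Finset.prod_ite, Finset.prod_const, Finset.prod_const_one, mul_one]
  congr 1
  have h3 : (Finset.univ.filter fun k : Fin (2 * n) => (k : ℕ) < 2 * m) =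
      Finset.univ.map (Fin.castLEEmb (show 2 * m ≤ 2 * n by omega)) := by
    ext k
    simp only [Finset.mem_filter, Finset.mem_univ, true_and, Finset.mem_map,
      Fin.castLEEmb_apply]
    constructor
    · intro hk
      exact ⟨⟨k, hk⟩, rfl⟩
    · rintro ⟨i, rfl⟩
      exact i.2
  rw [h3, Finset.card_map, Finset.card_univ, Fintype.card_fin]

theorem pow_layer (u : ℝ) (n t : ℕ) (ht : t ≤ n) :
    u ^ t = u ^ n + ∑ m ∈ Finset.range n, if t ≤ m then (1 - u) * u ^ m else 0 := by
  induction n with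
  | zero =>
    have : t = 0 := by omega
    subst this
    simp
  | succ n ih =>
    rw [Finset.sum_range_succ]
    rcases Nat.lt_or_ge n t with h | h
    · have h1 : t = n + 1 := by omega
      subst h1
      have h2 : ∀ m ∈ Finset.range n, (if n + 1 ≤ m then (1 - u) * u ^ m else 0) = 0 := by
        intro m hm
        rw [Finset.mem_range] at hm
        rw [if_neg (by omega)]
      rw [Finset.sum_eq_zero h2, if_neg (by omega)]
      ring
    · have h1 := ih h
      rw [if_pos h]
      rw [h1]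
      ring

/-- the sum over one coordinate -/
theorem sum_tau (j n : ℕ) (u : ℝ) :
    ∑ h ∈ Box j (2 * n), u ^ tau h =
      (q j : ℝ) ^ (2 * n) * u ^ n + (1 - u) * ∑ m ∈ Finset.range n, ((q j : ℝ) ^ 2 * u) ^ m := by
  have h1 : ∀ h ∈ Box j (2 * n), u ^ tau h = u ^ n +
      ∑ m ∈ Finset.range n, if tau h ≤ m then (1 - u) * u ^ m else 0 := by
    intro h _
    exact pow_layer u n _ (tau_le_n h)
  rw [Finset.sum_congr rfl h1, Finset.sum_add_distrib, Finset.sum_const, card_Box,
    Finset.sum_comm, nsmul_eq_mul]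
  push_cast
  congr 1
  rw [Finset.mul_sum]
  refine Finset.sum_congr rfl fun m hm => ?_
  rw [Finset.mem_range] at hm
  rw [← Finset.sum_filter, Finset.sum_const, card_tau_le j n m hm.le, nsmul_eq_mul]
  push_cast
  rw [mul_pow, ← pow_mul]
  ring

/-- the coordinates of the torsor with given components -/
noncomputable def glue {n : ℕ} (p : Fin 3 → Fin (2 * n) → K) : Fin (6 * n) → K :=
  fun i => p ⟨(i : ℕ) % 3, Nat.mod_lt _ (by norm_num)⟩ ⟨(i : ℕ) / 3, by omega⟩

theorem top_glue {n : ℕ} (p : Fin 3 → Fin (2 * n) → K) (l : Fin 3) :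
    top (ofFin (glue p)) l = tau (p l) := by
  have h : ∀ m, top (ofFin (glue p)) l ≤ m ↔ tau (p l) ≤ m := by
    intro m
    rw [top_le_iff, tau_le]
    have hl := l.2
    have key : ∀ k : ℕ, ∀ hk : k < 2 * n, ofFin (glue p) (3 * k + l) = p l ⟨k, hk⟩ := by
      intro k hk
      rw [level_isom_apply, dif_pos (by omega : 3 * k + (l : ℕ) < 6 * n)]
      unfold glue
      have e1 : (⟨(3 * k + (l : ℕ)) % 3, Nat.mod_lt _ (by norm_num)⟩ : Fin 3) = l := by
        apply Fin.ext
        show (3 * k + (l : ℕ)) % 3 = l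
        omega
      have e2 : (3 * k + (l : ℕ)) / 3 = k := by omega
      simp only [e1, e2]
    constructor
    · intro h k hk
      have h1 := h k hk
      rwa [key k k.2] at h1
    · intro h k hk
      by_cases hkn : k < 2 * n
      · rw [key k hkn]
        exact h ⟨k, hkn⟩ hk
      · rw [level_isom_apply, dif_neg (by omega)]
  exact le_antisymm ((h _).2 le_rfl) ((h _).1 le_rfl)

theorem vD_glue {n : ℕ} (p : Fin 3 → Fin (2 * n) → K) :
    vD (ofFin (glue p)) = ∑ l, tau (p l) := by
  unfold vD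
  exact Finset.sum_congr rfl fun l _ => top_glue p l

theorem glue_bij (n : ℕ) : Function.Bijective (glue (n := n)) := by
  constructor
  · intro p p' h
    funext l k
    have hl := l.2
    have hk := k.2
    have h1 := congrFun h ⟨3 * (k : ℕ) + l, by omega⟩
    unfold glue at h1
    have e1 : (⟨(3 * (k : ℕ) + (l : ℕ)) % 3, Nat.mod_lt _ (by norm_num)⟩ : Fin 3) = l := by
      apply Fin.ext
      show (3 * (k : ℕ) + (l : ℕ)) % 3 = l
      omega
    have e2 : (3 * (k : ℕ) + (l : ℕ)) / 3 = k := by omega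
    simp only [e1, e2] at h1
    exact h1
  · intro x
    refine ⟨fun l k => x ⟨3 * (k : ℕ) + l, by have := l.2; have := k.2; omega⟩, ?_⟩
    funext i
    have h : (⟨3 * ((i : ℕ) / 3) + (i : ℕ) % 3, by omega⟩ : Fin (6 * n)) = i := by
      apply Fin.ext
      show 3 * ((i : ℕ) / 3) + (i : ℕ) % 3 = i
      omega
    exact congrArg x h

/-- the sum over the box of torsors -/
theorem sum_vD (j n : ℕ) (u : ℝ) :
    ∑ x ∈ Box j (6 * n), u ^ vD (ofFin x) = (∑ h ∈ Box j (2 * n), u ^ tau h) ^ 3 := by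
  have h1 : (∑ h ∈ Box j (2 * n), u ^ tau h) ^ 3 =
      ∏ _l : Fin 3, ∑ h ∈ Box j (2 * n), u ^ tau h := by
    simp
  rw [h1, Finset.prod_univ_sum]
  symm
  refine Finset.sum_bij (fun p _ => glue p) ?_ ?_ ?_ ?_
  · intro p hp
    rw [Fintype.mem_piFinset] at hp
    rw [mem_Box]
    intro i
    exact (mem_Box j _ _).1 (hp _) _
  · intro p _ p' _ h
    exact (glue_bij n).1 h
  · intro x hx
    obtain ⟨p, rfl⟩ := (glue_bij n).2 x
    refine ⟨p, ?_, rfl⟩
    rw [Fintype.mem_piFinset]
    intro l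
    rw [mem_Box] at hx ⊢
    intro k
    have hl := l.2
    have hk := k.2
    have h2 := hx ⟨3 * (k : ℕ) + l, by omega⟩
    unfold glue at h2
    have e1 : (⟨(3 * (k : ℕ) + (l : ℕ)) % 3, Nat.mod_lt _ (by norm_num)⟩ : Fin 3) = l := by
      apply Fin.ext
      show (3 * (k : ℕ) + (l : ℕ)) % 3 = l
      omega
    have e2 : (3 * (k : ℕ) + (l : ℕ)) / 3 = k := by omega
    simp only [e1, e2] at h2
    exact h2
  · intro p _
    rw [vD_glue, Finset.prod_pow_eq_pow_sum]

theorem cnt_levelD (j n a : ℕ) (ha : a ≤ n) :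
    cnt j (levelD a) = ((Box j (6 * n)).filter fun x => vD (ofFin x) = a).card := by
  classical
  unfold cnt
  have hof : ∀ x : Fin (6 * a) → K, vD (ofFin x) = a →
      ofFin (level_isom_f (6 * a) (6 * n) x) = ofFin x := fun x hx =>
    levelD_isom_of _ _ a x (by omega) hx
  have h1 : (((Box j (6 * n)).filter fun x => vD (ofFin x) = a : Finset (Fin (6 * n) → K)) :
      Set (Fin (6 * n) → K)) = level_isom_f (6 * a) (6 * n) '' pts j (levelD a) := by
    ext x
    simp only [Finset.coe_filter, Set.mem_setOf_eq, Set.mem_image, mem_Box]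
    constructor
    · rintro ⟨h1, h2⟩
      have h3 : ofFin (level_isom_f (6 * n) (6 * a) x) = ofFin x :=
        levelD_isom_of _ _ a x le_rfl h2
      refine ⟨level_isom_f (6 * n) (6 * a) x, ⟨?_, ?_⟩, ?_⟩
      · show vD (ofFin (level_isom_f (6 * n) (6 * a) x)) = a
        rw [h3, h2]
      · intro i
        unfold level_isom_f
        split_ifs with h
        · exact h1 _
        · exact zero_pow (cnt_bij_q_ne j)
      · apply level_isom_inj
        rw [hof _ (by rw [h3, h2]), h3]
    · rintro ⟨y, ⟨hy1, hy2⟩, rfl⟩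
      refine ⟨?_, ?_⟩
      · intro i
        unfold level_isom_f
        split_ifs with h
        · exact hy2 _
        · exact zero_pow (cnt_bij_q_ne j)
      · rw [hof y hy1]
        exact hy1
  rw [← Set.ncard_coe_finset, h1, Set.InjOn.ncard_image]
  intro x hx y hy hxy
  apply level_isom_inj
  rw [← hof x hx.1, ← hof y hy.1]
  exact congrArg ofFin hxy

/-- the generating series up to `n` and the sum over the box -/
theorem sum_cnt (j n : ℕ) (u : ℝ) (hu0 : 0 ≤ u) (hu1 : u ≤ 1) :
    ∑ a ∈ Finset.range (n + 1), (cnt j (levelD a) : ℝ) * u ^ a ≤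
      (∑ h ∈ Box j (2 * n), u ^ tau h) ^ 3 ∧
    (∑ h ∈ Box j (2 * n), u ^ tau h) ^ 3 ≤
      ∑ a ∈ Finset.range (n + 1), (cnt j (levelD a) : ℝ) * u ^ a +
        (q j : ℝ) ^ (6 * n) * u ^ (n + 1) := by
  classical
  rw [← sum_vD]
  have h1 : ∑ a ∈ Finset.range (n + 1), (cnt j (levelD a) : ℝ) * u ^ a =
      ∑ x ∈ (Box j (6 * n)).filter (fun x => vD (ofFin x) ≤ n), u ^ vD (ofFin x) := by
    have h2 : ∀ a ∈ Finset.range (n + 1), (cnt j (levelD a) : ℝ) * u ^ a =
        ∑ x ∈ (Box j (6 * n)).filter (fun x => vD (ofFin x) = a), u ^ vD (ofFin x) := by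
      intro a ha
      rw [Finset.mem_range] at ha
      rw [cnt_levelD j n a (by omega)]
      rw [Finset.sum_congr rfl (fun x hx => by rw [(Finset.mem_filter.1 hx).2]),
        Finset.sum_const, nsmul_eq_mul]
    rw [Finset.sum_congr rfl h2]
    rw [← Finset.sum_fiberwise_of_maps_to (s := (Box j (6 * n)).filter
      (fun x => vD (ofFin x) ≤ n)) (t := Finset.range (n + 1)) (g := fun x => vD (ofFin x))
      (f := fun x => u ^ vD (ofFin x))]
    · refine Finset.sum_congr rfl fun a ha => ?_
      rw [Finset.mem_range] at ha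
      refine Finset.sum_congr ?_ fun _ _ => rfl
      ext x
      simp only [Finset.mem_filter]
      constructor
      · rintro ⟨h3, h4⟩
        exact ⟨⟨h3, by omega⟩, h4⟩
      · rintro ⟨⟨h3, -⟩, h4⟩
        exact ⟨h3, h4⟩
    · intro x hx
      rw [Finset.mem_range]
      have := (Finset.mem_filter.1 hx).2
      omega
  rw [h1]
  rw [← Finset.sum_filter_add_sum_filter_not (Box j (6 * n)) (fun x => vD (ofFin x) ≤ n)
    (fun x => u ^ vD (ofFin x))]
  constructor
  · have h2 : 0 ≤ ∑ x ∈ (Box j (6 * n)).filter (fun x => ¬ vD (ofFin x) ≤ n),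
      u ^ vD (ofFin x) := Finset.sum_nonneg fun x _ => pow_nonneg hu0 _
    linarith
  · have h2 : ∑ x ∈ (Box j (6 * n)).filter (fun x => ¬ vD (ofFin x) ≤ n), u ^ vD (ofFin x) ≤
        (q j : ℝ) ^ (6 * n) * u ^ (n + 1) := by
      calc ∑ x ∈ (Box j (6 * n)).filter (fun x => ¬ vD (ofFin x) ≤ n), u ^ vD (ofFin x)
          ≤ ∑ x ∈ (Box j (6 * n)).filter (fun x => ¬ vD (ofFin x) ≤ n), u ^ (n + 1) := by
            refine Finset.sum_le_sum fun x hx => ?_
            have h3 := (Finset.mem_filter.1 hx).2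
            exact pow_le_pow_of_le_one hu0 hu1 (by omega)
        _ = (((Box j (6 * n)).filter (fun x => ¬ vD (ofFin x) ≤ n)).card : ℝ) * u ^ (n + 1) := by
            rw [Finset.sum_const, nsmul_eq_mul]
        _ ≤ (q j : ℝ) ^ (6 * n) * u ^ (n + 1) := by
            refine mul_le_mul_of_nonneg_right ?_ (pow_nonneg hu0 _)
            have h4 := Finset.card_filter_le (Box j (6 * n)) (fun x => ¬ vD (ofFin x) ≤ n)
            rw [card_Box] at h4
            exact_mod_cast h4
    linarith

end Pool.Agent.R921
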