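import Pool.Agent.R921.WR3

/-!
# The arithmetic argument
-/

namespace Pool.Agent.R921

open MvPolynomial Pool.Agent.Helper449.MST

/-- `w ^ 2` does not divide `Y ^ A - 1` -/
theorem arith_sq (Y w T : ℤ) (A : ℕ) (hA : 0 < A) (h3 : 3 ∣ Y) (hT : T = Y ^ 54)
    (hw : w = T ^ 2 + T + 1) (hAw : (A : ℤ) < w) (h : w ^ 2 ∣ Y ^ A - 1) : False := by
  have hT3 : 3 ∣ T := by
    rw [hT]
    exact dvd_pow h3 (by norm_num)
  have hw0 : 0 < w := by
    have : (0 : ℤ) < A := by exact_mod_cast hA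
    linarith
  -- `w` and `T - 1` are coprime
  have hc3 : IsCoprime w 3 := by
    obtain ⟨t, ht⟩ := hT3
    refine ⟨1, -(3 * t ^ 2 + t), ?_⟩
    rw [hw, ht]
    ring
  have hcT : IsCoprime w (T - 1) := by
    have h1 : IsCoprime (3 + (T - 1) * (T + 2)) (T - 1) := by
      have h2 : IsCoprime (3 : ℤ) (T - 1) := by
        obtain ⟨t, ht⟩ := hT3
        refine ⟨t, -1, ?_⟩
        rw [ht]
        ring
      exact IsCoprime.add_mul_left_left h2 _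
    have h4 : w = 3 + (T - 1) * (T + 2) := by
      rw [hw]
      ring
    rw [h4]
    exact h1
  have h1 : w ^ 2 ∣ Y ^ (A * 162) - 1 := by
    refine h.trans ?_
    rw [pow_mul]
    have h2 := sub_one_dvd_pow_sub_one (Y ^ A) 162
    exact h2
  have h2 : Y ^ (A * 162) - 1 = (T - 1) * w * ∑ k ∈ Finset.range A, (T ^ 3) ^ k := by
    have h3 : Y ^ (A * 162) = (T ^ 3) ^ A := by
      rw [hT, ← pow_mul, ← pow_mul]
      congr 1
      ring
    have h4 := mul_geom_sum (T ^ 3) A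
    have h5 : T ^ 3 - 1 = (T - 1) * w := by
      rw [hw]
      ring
    rw [h3, ← h4, h5]
  rw [h2] at h1
  have h5 : w ∣ (T - 1) * ∑ k ∈ Finset.range A, (T ^ 3) ^ k := by
    obtain ⟨c, hc⟩ := h1
    refine ⟨c, ?_⟩
    have h6 : w * ((T - 1) * ∑ k ∈ Finset.range A, (T ^ 3) ^ k) = w * (w * c) := by
      linear_combination hc
    exact mul_left_cancel₀ hw0.ne' h6
  have h6 : w ∣ ∑ k ∈ Finset.range A, (T ^ 3) ^ k := hcT.dvd_of_dvd_mul_left h5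
  have h7 : w ∣ (∑ k ∈ Finset.range A, (T ^ 3) ^ k) - A := by
    have h8 : (∑ k ∈ Finset.range A, (T ^ 3) ^ k) - A =
        ∑ k ∈ Finset.range A, ((T ^ 3) ^ k - 1) := by
      rw [Finset.sum_sub_distrib]
      simp
    rw [h8]
    refine Finset.dvd_sum fun k _ => ?_
    refine Dvd.dvd.trans ?_ (sub_one_dvd_pow_sub_one (T ^ 3) k)
    exact ⟨T - 1, by rw [hw]; ring⟩
  have h9 : w ∣ (A : ℤ) := by
    have := dvd_sub h6 h7
    rwa [sub_sub_cancel] at this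
  have h10 := Int.le_of_dvd (by exact_mod_cast hA) h9
  omega

theorem arith_contra (Y q w k : ℤ) (A B : ℕ) (hA : 0 < A) (h3 : 3 ∣ Y) (hq : q = Y ^ 27)
    (hw : w = q ^ 4 + q ^ 2 + 1) (hAw : (A : ℤ) < w)
    (h : q ^ 42 * ((q ^ 2 + 1) * (q ^ 4 + 1)) ^ 3 * Y ^ B * (Y ^ A - 1) = w ^ 3 * k) : False := by
  refine arith_sq Y w (q ^ 2) A hA h3 (by rw [hq, ← pow_mul]) (by rw [hw]; ring) hAw ?_
  have c1 : IsCoprime w q := ⟨1, -(q ^ 3 + q), by rw [hw]; ring⟩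
  have c2 : IsCoprime w Y := by
    have : IsCoprime w (Y ^ 27) := hq ▸ c1
    exact (IsCoprime.pow_right_iff (by norm_num)).1 this
  have c3 : IsCoprime w (q ^ 2 + 1) := ⟨1, -q ^ 2, by rw [hw]; ring⟩
  have c4 : IsCoprime w (q ^ 4 + 1) := by
    -- w = (q ^ 4 + 1) + q ^ 2
    have h1 : IsCoprime (q ^ 2 + 1 * (q ^ 4 + 1)) (q ^ 4 + 1) := by
      have h2 : IsCoprime (q ^ 2) (q ^ 4 + 1) := ⟨-q ^ 2, 1, by ring⟩
      exact IsCoprime.add_mul_right_left h2 1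
    have h4 : w = q ^ 2 + 1 * (q ^ 4 + 1) := by rw [hw]; ring
    rw [h4]
    exact h1
  have h1 : w ^ 3 ∣ q ^ 42 * ((q ^ 2 + 1) * (q ^ 4 + 1)) ^ 3 * Y ^ B * (Y ^ A - 1) := ⟨k, h⟩
  have h2 : IsCoprime (w ^ 3) (q ^ 42 * ((q ^ 2 + 1) * (q ^ 4 + 1)) ^ 3 * Y ^ B) := by
    apply IsCoprime.pow_left
    exact ((c1.pow_right).mul_right ((c3.mul_right c4).pow_right)).mul_right c2.pow_right
  have h5 : w ^ 3 ∣ Y ^ A - 1 := h2.dvd_of_dvd_mul_left h1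
  exact (pow_dvd_pow w (by norm_num : 2 ≤ 3)).trans h5

end Pool.Agent.R921
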