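import Pool.Agent.R921.WR4

/-!
# The stringy motive is not a finite sum of `z / (L^a - 1)`
-/

namespace Pool.Agent.R921

open MvPolynomial Pool.Agent.Helper449.MST

/-- The limit `M` of `s`, in the completion for the dimension filtration `Fil` of the quotient by
`R`, is a finite sum `∑ z_i / (L^{a_i / 27} - 1)`, where the `a_i` are positive integers, the `z_i`
are elements of the additive group generated by the symbols `{Z} L^{b / 27}` (in particular they can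
be classes `{Z_i}` of varieties), and `z / (L^{a / 27} - 1)` is the sum of the series
`∑_{t ≥ 1} z L^{-t a / 27}`. -/
def WeaklyRationalMod (R : AddSubgroup (FreeAbelianGroup Gen)) (s : ℕ → FreeAbelianGroup Gen) :
    Prop :=
  ∃ (k : ℕ) (z : Fin k → FreeAbelianGroup Gen) (a : Fin k → ℕ), (∀ i, 0 < a i) ∧
    ∀ m : ℤ, ∃ n₀, ∀ n ≥ n₀,
      s n - ∑ i, ∑ t ∈ Finset.range n, shift (-((t + 1) * a i : ℤ)) (z i) ∈ R ⊔ Fil m

theorem weaklyRationalMod_mono {R R' : AddSubgroup (FreeAbelianGroup Gen)} (h : R ≤ R')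
    (s : ℕ → FreeAbelianGroup Gen) (hs : WeaklyRationalMod R s) : WeaklyRationalMod R' s := by
  obtain ⟨k, z, a, ha, hm⟩ := hs
  refine ⟨k, z, a, ha, fun m => ?_⟩
  obtain ⟨n₀, hn⟩ := hm m
  exact ⟨n₀, fun n hn' => sup_le_sup_right h (Fil m) (hn n hn')⟩

theorem y_ge (j : ℕ) : 3 ≤ y j := by
  unfold y
  calc 3 = 3 ^ 1 := (pow_one 3).symm
    _ ≤ 3 ^ (2 * j.factorial) := Nat.pow_le_pow_right (by norm_num) (by
      have := j.factorial_pos
      omega)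

theorem q_eq (j : ℕ) : q j = y j ^ 27 := by
  unfold q y
  rw [← pow_mul]
  congr 1
  ring

theorem j_le_y (j : ℕ) : j ≤ y j := by
  unfold y
  have h2 : j < 3 ^ j := Nat.lt_pow_self (by norm_num)
  have h3 : j ≤ 2 * j.factorial := by
    have := Nat.self_le_factorial j
    omega
  have h4 : 3 ^ j ≤ 3 ^ (2 * j.factorial) := Nat.pow_le_pow_right (by norm_num) h3
  omega

theorem mu_shift (j : ℕ) (b : ℤ) (x : FreeAbelianGroup Gen) :
    mu j (shift b x) = (y j : ℝ) ^ b * mu j x := by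
  have hy : (y j : ℝ) ≠ 0 := by
    have := y_ge j
    have : 0 < y j := by omega
    exact_mod_cast this.ne'
  have h : (mu j).comp (shift b) = (AddMonoidHom.mulLeft ((y j : ℝ) ^ b)).comp (mu j) := by
    ext g
    simp only [AddMonoidHom.comp_apply, AddMonoidHom.coe_mulLeft, shift, mu,
      FreeAbelianGroup.lift_apply_of]
    rw [zpow_add₀ hy]
    ring
  exact DFunLike.congr_fun h x

theorem mu_of (j : ℕ) (g : Gen) :
    mu j (FreeAbelianGroup.of g) = (cnt j g.S : ℝ) * (y j : ℝ) ^ g.b := by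
  unfold mu
  rw [FreeAbelianGroup.lift_apply_of]

theorem cnt_le_pow (j : ℕ) (g : Gen) : (cnt j g.S : ℝ) ≤ (y j : ℝ) ^ (27 * g.n) := by
  have h1 : cnt j g.S ≤ q j ^ g.n := by
    rw [← cnt_univ g.n j]
    unfold cnt
    apply Set.ncard_le_ncard _ (pts_finite j _)
    intro x hx
    exact ⟨Set.mem_univ _, hx.2⟩
  rw [q_eq, ← pow_mul] at h1
  exact_mod_cast h1

/-- integrality of the measures up to a bounded power of `y j` -/
theorem mu_int (z : FreeAbelianGroup Gen) :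
    ∃ B : ℕ, ∀ j, ∃ k : ℤ, mu j z * (y j : ℝ) ^ B = k := by
  induction z using FreeAbelianGroup.induction_on with
  | zero => exact ⟨0, fun j => ⟨0, by simp⟩⟩
  | of g =>
    refine ⟨g.b.natAbs, fun j => ⟨(cnt j g.S : ℤ) * (y j : ℤ) ^ (g.b + g.b.natAbs).toNat, ?_⟩⟩
    have hy : (y j : ℝ) ≠ 0 := by
      have := y_ge j
      have : 0 < y j := by omega
      exact_mod_cast this.ne'
    have h1 : ((g.b + (g.b.natAbs : ℤ)).toNat : ℤ) = g.b + (g.b.natAbs : ℤ) :=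
      Int.toNat_of_nonneg (by omega)
    have h2 : (y j : ℝ) ^ (g.b + (g.b.natAbs : ℤ)) =
        (y j : ℝ) ^ (g.b + (g.b.natAbs : ℤ)).toNat := by
      conv_lhs => rw [← h1]
      exact zpow_natCast _ _
    rw [mu_of, mul_assoc, ← zpow_natCast, ← zpow_add₀ hy, h2]
    push_cast
    rfl
  | neg g ih =>
    obtain ⟨B, h⟩ := ih
    refine ⟨B, fun j => ?_⟩
    obtain ⟨k, hk⟩ := h j
    refine ⟨-k, ?_⟩
    rw [map_neg, neg_mul, hk]
    push_cast
    rfl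
  | add x x' hx hx' =>
    obtain ⟨B, h⟩ := hx
    obtain ⟨B', h'⟩ := hx'
    refine ⟨B + B', fun j => ?_⟩
    obtain ⟨k, hk⟩ := h j
    obtain ⟨k', hk'⟩ := h' j
    refine ⟨k * (y j : ℤ) ^ B' + k' * (y j : ℤ) ^ B, ?_⟩
    rw [map_add, pow_add]
    push_cast
    rw [← hk, ← hk']
    ring

/-- growth of the measures -/
theorem mu_growth (z : FreeAbelianGroup Gen) :
    ∃ (C : ℝ) (D : ℕ), 0 ≤ C ∧ ∀ j, |mu j z| ≤ C * (y j : ℝ) ^ D := by
  have hy1 : ∀ j, (1 : ℝ) ≤ y j := fun j => by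
    have := y_ge j
    have : 1 ≤ y j := by omega
    exact_mod_cast this
  induction z using FreeAbelianGroup.induction_on with
  | zero => exact ⟨0, 0, le_rfl, fun j => by simp⟩
  | of g =>
    refine ⟨1, 27 * g.n + g.b.natAbs, zero_le_one, fun j => ?_⟩
    rw [mu_of, one_mul, pow_add]
    have h0 : (0 : ℝ) ≤ (y j : ℝ) ^ g.b := zpow_nonneg (by linarith [hy1 j]) _
    rw [abs_of_nonneg (mul_nonneg (Nat.cast_nonneg _) h0)]
    have h1 : (y j : ℝ) ^ g.b ≤ (y j : ℝ) ^ g.b.natAbs := by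
      rw [← zpow_natCast]
      exact zpow_le_zpow_right₀ (hy1 j) (by omega)
    exact mul_le_mul (cnt_le_pow j g) h1 h0 (pow_nonneg (by linarith [hy1 j]) _)
  | neg g ih =>
    obtain ⟨C, D, h0, h⟩ := ih
    refine ⟨C, D, h0, fun j => ?_⟩
    rw [map_neg, abs_neg]
    exact h j
  | add x x' hx hx' =>
    obtain ⟨C, D, h0, h⟩ := hx
    obtain ⟨C', D', h0', h'⟩ := hx'
    refine ⟨C + C', D + D', by linarith, fun j => ?_⟩
    rw [map_add]
    refine (abs_add_le _ _).trans ?_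
    have h1 : (y j : ℝ) ^ D ≤ (y j : ℝ) ^ (D + D') := pow_le_pow_right₀ (hy1 j) (by omega)
    have h2 : (y j : ℝ) ^ D' ≤ (y j : ℝ) ^ (D + D') := pow_le_pow_right₀ (hy1 j) (by omega)
    have h3 := mul_le_mul_of_nonneg_left h1 h0
    have h4 := mul_le_mul_of_nonneg_left h2 h0'
    have h5 := h j
    have h6 := h' j
    nlinarith

theorem shift_shift (a b : ℤ) (x : FreeAbelianGroup Gen) : shift a (shift b x) = shift (b + a) x := by
  have h : (shift a).comp (shift b) = shift (b + a) := by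
    ext g
    simp only [AddMonoidHom.comp_apply, shift, FreeAbelianGroup.lift_apply_of, add_assoc]
  exact DFunLike.congr_fun h x

theorem shift_Fil (m : ℤ) (x : FreeAbelianGroup Gen) (hx : x ∈ Fil m) :
    shift (27 * m) x ∈ Fil 0 := by
  have hle : Fil m ≤ (Fil 0).comap (shift (27 * m)) := by
    unfold Fil
    rw [AddSubgroup.closure_le]
    rintro _ ⟨g, D, h1, h2, rfl⟩
    rw [SetLike.mem_coe, AddSubgroup.mem_comap]
    apply AddSubgroup.subset_closure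
    refine ⟨⟨g.n, g.S, g.constr, g.b + 27 * m⟩, D, h1, ?_, ?_⟩
    · show 27 * (D : ℤ) + (g.b + 27 * m) ≤ -(27 * 0)
      omega
    · unfold shift
      rw [FreeAbelianGroup.lift_apply_of]
  exact hle hx

theorem mu_Fil (m : ℤ) (x : FreeAbelianGroup Gen) (hx : x ∈ Fil m) :
    ∃ (C : ℝ) (j₀ : ℕ), ∀ j ≥ j₀, |mu j x| ≤ C * (y j : ℝ) ^ (-(27 * m)) := by
  obtain ⟨C, j₀, h⟩ := mu_fil _ (shift_Fil m x hx)
  refine ⟨C, j₀, fun j hj => ?_⟩
  have h1 := h j hj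
  have hy : (0 : ℝ) < y j := by
    have := y_ge j
    have : 0 < y j := by omega
    exact_mod_cast this
  rw [mu_shift, abs_mul, abs_of_pos (zpow_pos hy _)] at h1
  rw [zpow_neg, ← div_eq_mul_inv, le_div_iff₀ (zpow_pos hy _), mul_comm]
  exact h1

/-- the approximations of the first series -/
theorem approx_stringy (n j : ℕ) :
    |mu j (partialSumD 8 n) - (q j : ℝ) ^ 42 *
      (((q j : ℝ) ^ 2 + 1) * ((q j : ℝ) ^ 4 + 1) / ((q j : ℝ) ^ 4 + (q j : ℝ) ^ 2 + 1)) ^ 3| ≤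
      28 * ((q j : ℝ) ^ 48 / (q j : ℝ) ^ (2 * n)) := by
  have hq3 : (3 : ℝ) ≤ q j := by
    have h1 : 3 ≤ q j := by
      rw [q_eq]
      exact (y_ge j).trans (Nat.le_self_pow (by norm_num) _)
    exact_mod_cast h1
  have hq0 : (0 : ℝ) < q j := by linarith
  have hq1 : (1 : ℝ) ≤ q j := by linarith
  -- the measure of the partial sum
  have hmu : mu j (partialSumD 8 n) = (q j : ℝ) ^ 48 *
      ∑ a ∈ Finset.range (n + 1), (cnt j (levelD a) : ℝ) * (((q j : ℝ) ^ 8)⁻¹) ^ a := by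
    unfold partialSumD
    rw [map_sum, Finset.mul_sum]
    refine Finset.sum_congr rfl fun a _ => ?_
    rw [mu_of]
    have hyq : (q j : ℝ) = (y j : ℝ) ^ 27 := by
      rw [q_eq]
      push_cast
      rfl
    have hy0 : (y j : ℝ) ≠ 0 := by
      intro h0
      rw [hyq, h0] at hq0
      norm_num at hq0
    have h1 : (y j : ℝ) ^ (27 * (6 * ((8 : ℕ) : ℤ) - ((8 : ℕ) : ℤ) * (a : ℤ))) =
        (q j : ℝ) ^ 48 * (((q j : ℝ) ^ 8)⁻¹) ^ a := by
      rw [hyq, ← pow_mul, ← pow_mul, ← inv_pow, ← pow_mul, inv_pow, ← zpow_natCast,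
        ← zpow_natCast, ← zpow_neg, ← zpow_add₀ hy0]
      congr 1
      push_cast
      ring
    simp only
    rw [h1]
    ring
  generalize hQ : (q j : ℝ) = Q at *
  obtain ⟨u, hu⟩ : ∃ u : ℝ, u = (Q ^ 8)⁻¹ := ⟨_, rfl⟩
  rw [← hu] at hmu
  have hu0 : 0 < u := by rw [hu]; positivity
  have hQ8 : Q ^ 8 * u = 1 := by rw [hu]; exact mul_inv_cancel₀ (by positivity)
  have hu1 : u ≤ 1 := by
    rw [hu]
    exact inv_le_one_of_one_le₀ (one_le_pow₀ hq1)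
  obtain ⟨hs1, hs2⟩ := sum_cnt j n u hu0.le hu1
  rw [sum_tau, hQ] at hs1 hs2
  generalize ∑ a ∈ Finset.range (n + 1), (cnt j (levelD a) : ℝ) * u ^ a = S at hs1 hs2 hmu
  -- the geometric sum
  obtain ⟨r, hr⟩ : ∃ r : ℝ, r = Q ^ 2 * u := ⟨_, rfl⟩
  rw [← hr] at hs1 hs2
  have hr6 : Q ^ 6 * r = 1 := by
    rw [hr]
    linear_combination hQ8
  have hr0 : 0 < r := by rw [hr]; positivity
  have hQ6 : (729 : ℝ) ≤ Q ^ 6 := by
    have : (3 : ℝ) ^ 6 ≤ Q ^ 6 := pow_le_pow_left₀ (by norm_num) hq3 6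
    linarith
  have hr1 : r ≤ 1 / 2 := by nlinarith
  have hr1' : (1 - r) ≠ 0 := by linarith
  have hur : u ≤ r := by
    rw [hr]
    nlinarith [pow_le_pow_left₀ (by norm_num) hq3 2]
  obtain ⟨G, hG⟩ : ∃ G : ℝ, G = Q ^ (2 * n) * u ^ n + (1 - u) * ∑ m ∈ Finset.range n, r ^ m :=
    ⟨_, rfl⟩
  rw [← hG] at hs1 hs2
  have hG1 : G = r ^ n + (1 - u) * ∑ m ∈ Finset.range n, r ^ m := by
    rw [hG, hr, mul_pow, ← pow_mul]
  have hgeom : (1 - r) * ∑ m ∈ Finset.range n, r ^ m = 1 - r ^ n := by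
    have := mul_neg_geom_sum r n
    exact this
  obtain ⟨X, hX⟩ : ∃ X : ℝ, X = (1 - u) / (1 - r) := ⟨_, rfl⟩
  have hGX : (G - X) * (1 - r) = r ^ n * (u - r) := by
    rw [hX, sub_mul, div_mul_cancel₀ _ hr1', hG1]
    linear_combination (1 - u) * hgeom
  have hrn0 : 0 < r ^ n := pow_pos hr0 n
  have hX0 : 0 ≤ X := by
    rw [hX]
    exact div_nonneg (by linarith) (by linarith)
  have hX2 : X ≤ 2 := by
    rw [hX, div_le_iff₀ (by linarith)]
    linarith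
  have hGXle : |G - X| ≤ r ^ n := by
    have h1 : |G - X| * (1 - r) = r ^ n * (r - u) := by
      have h2 : |(G - X) * (1 - r)| = |r ^ n * (u - r)| := by rw [hGX]
      rw [abs_mul, abs_mul, abs_of_pos hrn0, abs_of_pos (show (0 : ℝ) < 1 - r by linarith),
        abs_sub_comm u r, abs_of_nonneg (show (0 : ℝ) ≤ r - u by linarith)] at h2
      exact h2
    have h3 : |G - X| * (1 - r) ≤ r ^ n * (1 - r) := by
      rw [h1]
      refine mul_le_mul_of_nonneg_left ?_ hrn0.le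
      linarith
    exact le_of_mul_le_mul_right h3 (by linarith)
  have hrn1 : r ^ n ≤ 1 := pow_le_one₀ hr0.le (by linarith)
  have hG3 : |G| ≤ 3 := by
    have h1 : G = (G - X) + X := by ring
    rw [h1]
    refine (abs_add_le _ _).trans ?_
    rw [abs_of_nonneg hX0]
    linarith
  have hcube : |G ^ 3 - X ^ 3| ≤ 27 * r ^ n := by
    have h1 : G ^ 3 - X ^ 3 = (G - X) * (G ^ 2 + G * X + X ^ 2) := by ring
    rw [h1, abs_mul]
    have h2 : |G ^ 2 + G * X + X ^ 2| ≤ 27 := by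
      have h3 := abs_le.1 hG3
      rw [abs_le]
      constructor
      · nlinarith
      · nlinarith
    calc |G - X| * |G ^ 2 + G * X + X ^ 2| ≤ r ^ n * 27 :=
          mul_le_mul hGXle h2 (abs_nonneg _) hrn0.le
      _ = 27 * r ^ n := by ring
  -- the error term
  have hrn : r ^ n ≤ (Q ^ (2 * n))⁻¹ := by
    have h1 : r ^ n * Q ^ (2 * n) ≤ 1 := by
      have h2 : r ^ n * Q ^ (2 * n) = (r * Q ^ 2) ^ n := by
        rw [mul_pow r (Q ^ 2) n, ← pow_mul]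
      rw [h2]
      apply pow_le_one₀ (by positivity)
      have h4 : Q ^ 2 ≤ Q ^ 6 := pow_le_pow_right₀ hq1 (by norm_num)
      have h5 := mul_le_mul_of_nonneg_left h4 hr0.le
      linarith
    rw [← one_div, le_div_iff₀ (by positivity)]
    exact h1
  have hun : Q ^ (6 * n) * u ^ (n + 1) ≤ (Q ^ (2 * n))⁻¹ := by
    have h1 : Q ^ (6 * n) * u ^ (n + 1) * Q ^ (2 * n) ≤ 1 := by
      have h2 : Q ^ (6 * n) * u ^ (n + 1) * Q ^ (2 * n) = (Q ^ 8 * u) ^ n * u := by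
        rw [mul_pow, ← pow_mul, pow_succ]
        have h3 : Q ^ (8 * n) = Q ^ (6 * n) * Q ^ (2 * n) := by
          rw [← pow_add]
          congr 1
          ring
        rw [h3]
        ring
      rw [h2, hQ8, one_pow, one_mul]
      exact hu1
    rw [← one_div, le_div_iff₀ (by positivity)]
    exact h1
  have hSX : |S - X ^ 3| ≤ 28 * (Q ^ (2 * n))⁻¹ := by
    have h1 := abs_le.1 hcube
    rw [abs_le]
    constructor <;> nlinarith
  -- the value of `X`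
  have hXv : Q ^ 42 * ((Q ^ 2 + 1) * (Q ^ 4 + 1) / (Q ^ 4 + Q ^ 2 + 1)) ^ 3 = Q ^ 48 * X ^ 3 := by
    have h1 : (Q ^ 2 + 1) * (Q ^ 4 + 1) / (Q ^ 4 + Q ^ 2 + 1) = Q ^ 2 * X := by
      rw [hX, ← mul_div_assoc, div_eq_div_iff (by positivity) hr1']
      -- Q ^ 2 - 1 is not zero
      have h2 : Q ^ 2 - 1 ≠ 0 := by nlinarith
      apply mul_left_cancel₀ h2
      apply mul_left_cancel₀ (show Q ^ 6 ≠ 0 by positivity)
      have e1 : Q ^ 6 * ((Q ^ 2 - 1) * ((Q ^ 2 + 1) * (Q ^ 4 + 1) * (1 - r))) =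
          (Q ^ 8 - 1) * (Q ^ 6 - 1) := by
        linear_combination (-(Q ^ 2 - 1) * (Q ^ 2 + 1) * (Q ^ 4 + 1)) * hr6
      have e2 : Q ^ 6 * ((Q ^ 2 - 1) * (Q ^ 2 * (1 - u) * (Q ^ 4 + Q ^ 2 + 1))) =
          (Q ^ 8 - 1) * (Q ^ 6 - 1) := by
        linear_combination (-(Q ^ 2 - 1) * (Q ^ 4 + Q ^ 2 + 1)) * hQ8
      rw [e1, e2]
    rw [h1]
    ring
  rw [hmu, hXv, ← mul_sub, abs_mul, abs_of_pos (show (0 : ℝ) < Q ^ 48 by positivity)]
  calc Q ^ 48 * |S - X ^ 3| ≤ Q ^ 48 * (28 * (Q ^ (2 * n))⁻¹) :=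
        mul_le_mul_of_nonneg_left hSX (by positivity)
    _ = 28 * (Q ^ 48 / Q ^ (2 * n)) := by
        rw [div_eq_mul_inv]
        ring

/-- the approximations of the second series -/
theorem approx_sum {k : ℕ} (z : Fin k → FreeAbelianGroup Gen) (a : Fin k → ℕ)
    (ha : ∀ i, 0 < a i) : ∃ (C : ℝ) (D : ℕ), ∀ n j : ℕ,
    |mu j (∑ i, ∑ t ∈ Finset.range n, shift (-((t + 1) * a i : ℤ)) (z i)) -
      ∑ i, mu j (z i) / ((y j : ℝ) ^ a i - 1)| ≤ C * ((y j : ℝ) ^ D / (y j : ℝ) ^ n) := by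
  choose C D hC hD using fun i => mu_growth (z i)
  refine ⟨∑ i, C i, ∑ i, D i, fun n j => ?_⟩
  have hy3 : (3 : ℝ) ≤ y j := by exact_mod_cast y_ge j
  have hy1 : (1 : ℝ) ≤ y j := by linarith
  generalize hY : (y j : ℝ) = Y at *
  have hY0 : Y ≠ 0 := by linarith
  have hterm : ∀ i, mu j (∑ t ∈ Finset.range n, shift (-((t + 1) * a i : ℤ)) (z i)) -
      mu j (z i) / (Y ^ a i - 1) = - (mu j (z i) * ((Y ^ a i)⁻¹ ^ n / (Y ^ a i - 1))) := by
    intro i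
    have h1 : (3 : ℝ) ≤ Y ^ a i := by
      calc (3 : ℝ) ≤ Y := hy3
        _ = Y ^ 1 := (pow_one Y).symm
        _ ≤ Y ^ a i := pow_le_pow_right₀ hy1 (ha i)
    have h2 : Y ^ a i - 1 ≠ 0 := by linarith
    have h3 : Y ^ a i ≠ 0 := by linarith
    have h4 : mu j (∑ t ∈ Finset.range n, shift (-((t + 1) * a i : ℤ)) (z i)) =
        mu j (z i) * ∑ t ∈ Finset.range n, (Y ^ a i)⁻¹ ^ (t + 1) := by
      rw [map_sum, Finset.mul_sum]
      refine Finset.sum_congr rfl fun t _ => ?_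
      rw [mu_shift, hY, zpow_neg, inv_pow, ← pow_mul, mul_comm]
      congr 2
      rw [← zpow_natCast]
      congr 1
      push_cast
      ring
    have h5 : (Y ^ a i - 1) * ∑ t ∈ Finset.range n, (Y ^ a i)⁻¹ ^ (t + 1) =
        1 - (Y ^ a i)⁻¹ ^ n := by
      have h6 := mul_neg_geom_sum ((Y ^ a i)⁻¹) n
      have h7 : ∑ t ∈ Finset.range n, (Y ^ a i)⁻¹ ^ (t + 1) =
          (Y ^ a i)⁻¹ * ∑ t ∈ Finset.range n, (Y ^ a i)⁻¹ ^ t := by
        rw [Finset.mul_sum]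
        exact Finset.sum_congr rfl fun t _ => pow_succ' _ _
      rw [h7, ← h6, ← mul_assoc]
      congr 1
      field_simp
    rw [h4]
    have h8 : ∑ t ∈ Finset.range n, (Y ^ a i)⁻¹ ^ (t + 1) =
        (1 - (Y ^ a i)⁻¹ ^ n) / (Y ^ a i - 1) := by
      rw [eq_div_iff h2, mul_comm]
      exact h5
    rw [h8]
    ring
  rw [map_sum, ← Finset.sum_sub_distrib, Finset.sum_congr rfl fun i _ => hterm i]
  refine (Finset.abs_sum_le_sum_abs _ _).trans ?_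
  rw [Finset.sum_mul]
  refine Finset.sum_le_sum fun i _ => ?_
  rw [abs_neg, abs_mul]
  have h1 : (3 : ℝ) ≤ Y ^ a i := by
    calc (3 : ℝ) ≤ Y := hy3
      _ = Y ^ 1 := (pow_one Y).symm
      _ ≤ Y ^ a i := pow_le_pow_right₀ hy1 (ha i)
  have h2 : |(Y ^ a i)⁻¹ ^ n / (Y ^ a i - 1)| ≤ (Y ^ n)⁻¹ := by
    have h3 : (0 : ℝ) ≤ (Y ^ a i)⁻¹ ^ n := by positivity
    rw [abs_of_nonneg (div_nonneg h3 (by linarith))]
    refine (div_le_self h3 (by linarith)).trans ?_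
    rw [inv_pow]
    refine inv_anti₀ (by positivity) ?_
    refine pow_le_pow_left₀ (by linarith) ?_ n
    calc Y = Y ^ 1 := (pow_one Y).symm
      _ ≤ Y ^ a i := pow_le_pow_right₀ hy1 (ha i)
  have h4 : |mu j (z i)| ≤ C i * Y ^ (∑ i, D i) := by
    have h5 := hD i j
    rw [hY] at h5
    refine h5.trans (mul_le_mul_of_nonneg_left ?_ (hC i))
    refine pow_le_pow_right₀ hy1 ?_
    exact Finset.single_le_sum (f := D) (fun _ _ => Nat.zero_le _) (Finset.mem_univ i)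
  calc |mu j (z i)| * |(Y ^ a i)⁻¹ ^ n / (Y ^ a i - 1)|
      ≤ (C i * Y ^ (∑ i, D i)) * (Y ^ n)⁻¹ :=
        mul_le_mul h4 h2 (abs_nonneg _) (mul_nonneg (hC i) (by positivity))
    _ = C i * (Y ^ (∑ i, D i) / Y ^ n) := by
        rw [div_eq_mul_inv]
        ring

/-- integrality of the second sum -/
theorem int_sum {k : ℕ} (z : Fin k → FreeAbelianGroup Gen) (a : Fin k → ℕ)
    (ha : ∀ i, 0 < a i) : ∃ B : ℕ, ∀ j, ∃ c : ℤ,
      (∑ i, mu j (z i) / ((y j : ℝ) ^ a i - 1)) * ((y j : ℝ) ^ B *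
        ((y j : ℝ) ^ (∏ i, a i) - 1)) = c := by
  choose B hB using fun i => mu_int (z i)
  refine ⟨∑ i, B i, fun j => ?_⟩
  choose c hc using fun i => hB i j
  have hdvd : ∀ i, ∃ d : ℤ, (y j : ℤ) ^ (∏ i, a i) - 1 = ((y j : ℤ) ^ a i - 1) * d := by
    intro i
    have h1 : a i ∣ ∏ i, a i := Finset.dvd_prod_of_mem a (Finset.mem_univ i)
    obtain ⟨e, he⟩ := h1
    rw [he, pow_mul]
    exact sub_one_dvd_pow_sub_one _ _
  choose d hd using hdvd
  refine ⟨∑ i, c i * (y j : ℤ) ^ (∑ i, B i - B i) * d i, ?_⟩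
  rw [Finset.sum_mul]
  push_cast
  refine Finset.sum_congr rfl fun i _ => ?_
  have hy3 : (3 : ℝ) ≤ y j := by exact_mod_cast y_ge j
  have h1 : (3 : ℝ) ≤ (y j : ℝ) ^ a i := by
    calc (3 : ℝ) ≤ y j := hy3
      _ = (y j : ℝ) ^ 1 := (pow_one _).symm
      _ ≤ (y j : ℝ) ^ a i := pow_le_pow_right₀ (by linarith) (ha i)
  have h2 : (y j : ℝ) ^ a i - 1 ≠ 0 := by linarith
  have h3 : ((y j : ℝ) ^ (∏ i, a i) - 1) = ((y j : ℝ) ^ a i - 1) * d i := by exact_mod_cast hd i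
  have h4 : (y j : ℝ) ^ (∑ i, B i) = (y j : ℝ) ^ (B i) * (y j : ℝ) ^ (∑ i, B i - B i) := by
    rw [← pow_add]
    congr 1
    have : B i ≤ ∑ i, B i := Finset.single_le_sum (f := B) (fun _ _ => Nat.zero_le _)
      (Finset.mem_univ i)
    omega
  rw [h3, h4, ← hc i]
  field_simp

/-- a sequence of integers tending to zero -/
theorem int_small (Y : ℕ → ℝ) (hY : Filter.Tendsto Y Filter.atTop Filter.atTop) (c : ℕ → ℤ)
    (C : ℝ) (j₀ : ℕ) (h : ∀ j ≥ j₀, |(c j : ℝ)| ≤ C / Y j) : ∃ j₁, ∀ j ≥ j₁, c j = 0 := by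
  have h1 := hY.eventually_gt_atTop (|C|)
  have h0 := hY.eventually_gt_atTop 0
  obtain ⟨j₁, hj₁⟩ := Filter.eventually_atTop.1 (h1.and h0)
  refine ⟨max j₀ j₁, fun j hj => ?_⟩
  obtain ⟨h2, h3⟩ := hj₁ j (le_trans (le_max_right _ _) hj)
  have h4 := h j (le_trans (le_max_left _ _) hj)
  have h5 : C / Y j < 1 := by
    rw [div_lt_one h3]
    exact (le_abs_self C).trans_lt h2
  have h6 : |(c j : ℝ)| < 1 := h4.trans_lt h5
  have h7 : |c j| < 1 := by exact_mod_cast h6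
  exact Int.abs_lt_one_iff.1 h7

theorem final_bound (Y Q M W g f C₁ C₂ : ℝ) (A B E : ℕ) (hY3 : 3 ≤ Y) (hQ1 : 1 ≤ Q)
    (hfw : Q ^ 42 * ((Q ^ 2 + 1) * (Q ^ 4 + 1)) ^ 3 = (Q ^ 4 + Q ^ 2 + 1) ^ 3 * f)
    (e5 : |M - f| ≤ 28 * (Y ^ E)⁻¹) (e6 : |W - g| ≤ |C₁| * (Y ^ E)⁻¹)
    (e2 : |M - W| ≤ |C₂| * (Y ^ E)⁻¹) (hE : Q ^ 12 * Y ^ B * Y ^ A * Y = Y ^ E) :
    |Q ^ 42 * ((Q ^ 2 + 1) * (Q ^ 4 + 1)) ^ 3 * Y ^ B * (Y ^ A - 1) -
        (Q ^ 4 + Q ^ 2 + 1) ^ 3 * (g * (Y ^ B * (Y ^ A - 1)))| ≤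
      27 * (28 + |C₁| + |C₂|) / Y := by
  have hY1 : (1 : ℝ) ≤ Y := by linarith
  have hY0 : (0 : ℝ) < Y := by linarith
  have hQ0 : (0 : ℝ) < Q := by linarith
  have hw0 : (0 : ℝ) < Q ^ 4 + Q ^ 2 + 1 := by positivity
  have e7 : Q ^ 42 * ((Q ^ 2 + 1) * (Q ^ 4 + 1)) ^ 3 * Y ^ B * (Y ^ A - 1) -
      (Q ^ 4 + Q ^ 2 + 1) ^ 3 * (g * (Y ^ B * (Y ^ A - 1))) =
      (Q ^ 4 + Q ^ 2 + 1) ^ 3 * Y ^ B * (Y ^ A - 1) * (f - g) := by
    rw [hfw]
    ring
  rw [e7]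
  have hC : (0 : ℝ) ≤ 28 + |C₁| + |C₂| := by positivity
  have hYE : 0 < (Y ^ E)⁻¹ := by positivity
  have hfg : |f - g| ≤ (28 + |C₁| + |C₂|) * (Y ^ E)⁻¹ := by
    have h1 := abs_le.1 e5
    have h2 := abs_le.1 e6
    have h3 := abs_le.1 e2
    rw [abs_le]
    constructor
    · linarith [h1.2, h2.1, h3.1]
    · linarith [h1.1, h2.2, h3.2]
  have hpos : 0 ≤ Y ^ A - 1 := by
    have := one_le_pow₀ (n := A) hY1
    linarith
  rw [abs_mul, abs_of_nonneg (by positivity)]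
  have hw1 : (Q ^ 4 + Q ^ 2 + 1) ^ 3 ≤ 27 * Q ^ 12 := by
    have h1 : Q ^ 2 ≤ Q ^ 4 := pow_le_pow_right₀ hQ1 (by norm_num)
    have h2 : 1 ≤ Q ^ 4 := one_le_pow₀ hQ1
    have h3 : (Q ^ 4 + Q ^ 2 + 1) ^ 3 ≤ (3 * Q ^ 4) ^ 3 :=
      pow_le_pow_left₀ hw0.le (by linarith) 3
    have h4 : (3 * Q ^ 4) ^ 3 = 27 * Q ^ 12 := by ring
    linarith
  have hYB : 0 < Y ^ B := pow_pos hY0 B
  have hYA : 0 < Y ^ A := pow_pos hY0 A
  have hQ12 : 0 < Q ^ 12 := pow_pos hQ0 12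
  calc (Q ^ 4 + Q ^ 2 + 1) ^ 3 * Y ^ B * (Y ^ A - 1) * |f - g|
      ≤ (27 * Q ^ 12) * Y ^ B * Y ^ A * ((28 + |C₁| + |C₂|) * (Y ^ E)⁻¹) := by
        refine mul_le_mul ?_ hfg (abs_nonneg _) (by positivity)
        refine mul_le_mul ?_ (by linarith) hpos (by positivity)
        exact mul_le_mul_of_nonneg_right hw1 hYB.le
    _ = 27 * (28 + |C₁| + |C₂|) / Y := by
        rw [← hE]
        field_simp

theorem not_weaklyRational : ¬ WeaklyRationalMod relSubUH (stringyD 8) := by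
  rintro ⟨k, z, a, ha, h⟩
  obtain ⟨C₁, D, happ⟩ := approx_sum z a ha
  obtain ⟨B, hint⟩ := int_sum z a ha
  obtain ⟨A, hA⟩ : ∃ A : ℕ, A = ∏ i, a i := ⟨_, rfl⟩
  have hA0 : 0 < A := by
    rw [hA]
    exact Finset.prod_pos fun i _ => ha i
  rw [← hA] at hint
  -- the exponent that has to be beaten
  obtain ⟨E, hE⟩ : ∃ E : ℕ, E = 27 * 12 + B + A + 1 := ⟨_, rfl⟩
  obtain ⟨n₀, hn₀⟩ := h (E : ℤ)
  obtain ⟨n, hn⟩ : ∃ n : ℕ, n = n₀ + E + D + 24 := ⟨_, rfl⟩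
  obtain ⟨n', hn'⟩ : ∃ n' : ℕ, n' = 27 * 8 * n := ⟨_, rfl⟩
  have hmem := hn₀ n' (by omega)
  obtain ⟨x, hx, x', hx', hxx⟩ := AddSubgroup.mem_sup.mp hmem
  obtain ⟨j₁, hj₁⟩ := mu_relUH x hx
  obtain ⟨C₂, j₂, hj₂⟩ := mu_Fil _ x' hx'
  have hs := stringyD_sub 8 n' (by norm_num)
  have hn'' : n' / (27 * 8) = n := by rw [hn', Nat.mul_div_cancel_left n (by norm_num)]
  rw [hn''] at hs
  obtain ⟨j₃, hj₃⟩ := mu_rel _ hs
  choose c hc using hint
  -- the integers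
  let w : ℕ → ℤ := fun j => (q j : ℤ) ^ 4 + (q j : ℤ) ^ 2 + 1
  let v : ℕ → ℤ := fun j => (q j : ℤ) ^ 42 *
    (((q j : ℤ) ^ 2 + 1) * ((q j : ℤ) ^ 4 + 1)) ^ 3 * (y j : ℤ) ^ B * ((y j : ℤ) ^ A - 1) -
      w j ^ 3 * c j
  have hv : ∃ j₄, ∀ j ≥ j₄, v j = 0 := by
    refine int_small (fun j => (y j : ℝ)) analytic_ytendsto v
      (27 * (28 + |C₁| + |C₂|)) (max j₁ (max j₂ j₃)) ?_
    intro j hj
    have e1 := hj₁ j ((le_max_left _ _).trans hj)
    have e2 := hj₂ j ((le_max_left _ _).trans ((le_max_right _ _).trans hj))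
    have e3 := hj₃ j ((le_max_right _ _).trans ((le_max_right _ _).trans hj))
    have e4 := congrArg (mu j) hxx
    rw [map_add, e1, zero_add, map_sub] at e4
    rw [map_sub, sub_eq_zero] at e3
    rw [e3] at e4
    have e5 := approx_stringy n j
    have e6 := happ n' j
    rw [e4] at e2
    have hqy : (q j : ℝ) = (y j : ℝ) ^ 27 := by
      rw [q_eq]
      push_cast
      rfl
    have hcj := hc j
    have hy3 : (3 : ℝ) ≤ y j := by exact_mod_cast y_ge j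
    have hvj : ((v j : ℤ) : ℝ) = (q j : ℝ) ^ 42 *
        (((q j : ℝ) ^ 2 + 1) * ((q j : ℝ) ^ 4 + 1)) ^ 3 * (y j : ℝ) ^ B * ((y j : ℝ) ^ A - 1) -
        ((q j : ℝ) ^ 4 + (q j : ℝ) ^ 2 + 1) ^ 3 * ((∑ i, mu j (z i) / ((y j : ℝ) ^ a i - 1)) *
          ((y j : ℝ) ^ B * ((y j : ℝ) ^ A - 1))) := by
      rw [hcj]
      simp only [v, w]
      push_cast
      rfl
    rw [hvj]
    have hY1 : (1 : ℝ) ≤ y j := by linarith
    have hQ1 : (1 : ℝ) ≤ q j := by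
      rw [hqy]
      exact one_le_pow₀ hY1
    refine final_bound (y j) (q j) _ _ _ _ C₁ C₂ A B E hy3 hQ1 ?_ (e5.trans ?_) (e6.trans ?_)
      (e2.trans ?_) ?_
    · rw [div_pow]
      have hw0 : (q j : ℝ) ^ 4 + (q j : ℝ) ^ 2 + 1 ≠ 0 := by positivity
      field_simp
    · refine mul_le_mul_of_nonneg_left ?_ (by norm_num)
      rw [div_le_iff₀ (by positivity), inv_mul_eq_div, le_div_iff₀ (by positivity), hqy,
        ← pow_mul, ← pow_mul, ← pow_add]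
      exact pow_le_pow_right₀ hY1 (by omega)
    · refine mul_le_mul (le_abs_self _) ?_ (by positivity) (abs_nonneg _)
      rw [div_le_iff₀ (by positivity), inv_mul_eq_div, le_div_iff₀ (by positivity), ← pow_add]
      exact pow_le_pow_right₀ hY1 (by omega)
    · refine mul_le_mul (le_abs_self _) ?_ (by positivity) (abs_nonneg _)
      rw [zpow_neg]
      refine inv_anti₀ (by positivity) ?_
      rw [← zpow_natCast]
      exact zpow_le_zpow_right₀ hY1 (by omega)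
    · rw [hqy, ← pow_mul, ← pow_add, ← pow_add, ← pow_succ, hE]
  obtain ⟨j₄, hj₄⟩ := hv
  -- a large `j`
  have hj := hj₄ (max j₄ A) (le_max_left _ _)
  refine arith_contra (y (max j₄ A)) (q (max j₄ A)) (w (max j₄ A)) (c (max j₄ A)) A B hA0
    ?_ ?_ rfl ?_ (sub_eq_zero.1 hj)
  · unfold y
    push_cast
    exact dvd_pow_self 3 (by
      have := (max j₄ A).factorial_pos
      omega)
  · rw [q_eq]
    push_cast
    rfl
  · have h1 : A ≤ y (max j₄ A) := (le_max_right _ _).trans (j_le_y _)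
    have h2 : y (max j₄ A) ≤ q (max j₄ A) := by
      rw [q_eq]
      exact Nat.le_self_pow (by norm_num) _
    have h3 : (A : ℤ) ≤ q (max j₄ A) := by exact_mod_cast h1.trans h2
    have h4 : (1 : ℤ) ≤ q (max j₄ A) := by
      have := (y_ge (max j₄ A)).trans h2
      have : 1 ≤ q (max j₄ A) := by omega
      exact_mod_cast this
    show (A : ℤ) < (q (max j₄ A) : ℤ) ^ 4 + (q (max j₄ A) : ℤ) ^ 2 + 1
    have h5 : (q (max j₄ A) : ℤ) ≤ (q (max j₄ A) : ℤ) ^ 2 := by nlinarith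
    have h6 : (0 : ℤ) ≤ (q (max j₄ A) : ℤ) ^ 4 := by positivity
    linarith

end Pool.Agent.R921
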